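import Mathlib

namespace Pool.Agent.MP_f3836a_nt.H23

open Complex Filter Topology

theorem hasDerivAt_re {φ : ℝ → ℂ} {φ' : ℂ} {θ : ℝ} (h : HasDerivAt φ φ' θ) :
    HasDerivAt (fun s => (φ s).re) φ'.re θ :=
  reCLM.hasFDerivAt.comp_hasDerivAt θ h

theorem hasDerivAt_im {φ : ℝ → ℂ} {φ' : ℂ} {θ : ℝ} (h : HasDerivAt φ φ' θ) :
    HasDerivAt (fun s => (φ s).im) φ'.im θ :=
  imCLM.hasFDerivAt.comp_hasDerivAt θ h

theorem hasDerivAt_log_norm {φ : ℝ → ℂ} {φ' : ℂ} {θ : ℝ} (h : HasDerivAt φ φ' θ) (h0 : φ θ ≠ 0) :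
    HasDerivAt (fun s => Real.log ‖φ s‖) (φ' / φ θ).re θ := by
  have h1 : HasDerivAt (fun s => φ s / φ θ) (φ' / φ θ) θ := h.div_const _
  have h2 := h1.clog_real (by simp [div_self h0])
  rw [div_self h0, div_one] at h2
  have h3 := (hasDerivAt_re h2).add_const (Real.log ‖φ θ‖)
  refine h3.congr_of_eventuallyEq ?_
  filter_upwards [h.continuousAt.eventually_ne h0] with s hs
  rw [Complex.log_re, norm_div, Real.log_div (by simpa using hs) (by simpa using h0)]
  ring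

/-- The form `log|z| d arg(1-z) - log|1-z| d arg z`. -/
noncomputable def eta (z h : ℂ) : ℝ :=
  Real.log ‖z‖ * (-h / (1 - z)).im - Real.log ‖1 - z‖ * (h / z).im

/-- `D` is a primitive of `eta` at `z`. -/
def Prim (D : ℂ → ℝ) (z : ℂ) : Prop :=
  ∀ (φ : ℝ → ℂ) (φ' : ℂ) (θ : ℝ), HasDerivAt φ φ' θ → φ θ = z →
    HasDerivAt (fun s => D (φ s)) (eta z φ') θ

theorem exists_prim_left :
    ∃ D : ℂ → ℝ, D (1 / 2) = 0 ∧ ∀ z : ℂ, z.re < 1 → z ≠ 0 → Prim D z := by
  have hU : IsOpen {z : ℂ | z.re < 1} := isOpen_lt continuous_re continuous_const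
  have hc : Convex ℝ {z : ℂ | z.re < 1} := convex_halfSpace_re_lt 1
  have hs : ∀ z : ℂ, z.re < 1 → 1 - z ∈ slitPlane := fun z hz => Or.inl (by simpa using hz)
  have hd : DifferentiableOn ℂ (fun z : ℂ => -Complex.log (1 - z)) {z : ℂ | z.re < 1} := by
    intro z hz
    exact (((differentiableAt_id.const_sub 1).clog (hs z hz)).neg).differentiableWithinAt
  have hg := (Complex.differentiableOn_dslope (c := 0) (hU.mem_nhds (by simp))).2 hd
  obtain ⟨L, hL⟩ := hc.exists_forall_hasDerivWithinAt hg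
  refine ⟨fun z => (L z - L (1 / 2)).im + (Complex.log (1 - z)).im * Real.log ‖z‖, ?_, ?_⟩
  · have e : (1 - 1 / 2 : ℂ) = ((1 / 2 : ℝ) : ℂ) := by push_cast; ring
    simp only [sub_self, zero_im, zero_add, e, Complex.log_im]
    rw [Complex.arg_ofReal_of_nonneg (by norm_num), zero_mul]
  · rintro z hz h0 φ φ' θ hφ rfl
    have h1 := (hL _ hz).hasDerivAt (hU.mem_nhds hz)
    rw [dslope_of_ne _ h0, slope_def_field] at h1
    have h2 := (h1.hasFDerivAt.restrictScalars ℝ).comp_hasDerivAt θ hφ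
    have h3 := hasDerivAt_im (h2.sub_const (L (1 / 2)))
    have h4 := hasDerivAt_im ((hφ.const_sub 1).clog_real (hs _ hz))
    have h5 := h3.add (h4.mul (hasDerivAt_log_norm hφ h0))
    refine h5.congr_deriv ?_
    have e : (ContinuousLinearMap.restrictScalars ℝ (ContinuousLinearMap.toSpanSingleton ℂ
        ((-Complex.log (1 - φ θ) - -Complex.log (1 - 0)) / (φ θ - 0)))) φ' =
        -Complex.log (1 - φ θ) * (φ' / φ θ) := by
      simp
      ring
    rw [e, eta, ← Complex.log_re (1 - φ θ)]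
    simp only [neg_mul, neg_im, mul_im]
    ring

theorem eta_symm (z h : ℂ) : eta (1 - z) (-h) = -eta z h := by
  simp only [eta, sub_sub_cancel, neg_neg]
  ring

theorem exists_prim : ∃ D : ℂ → ℝ, ∀ z : ℂ, z ≠ 0 → z ≠ 1 → Prim D z := by
  obtain ⟨D, h0, hD⟩ := exists_prim_left
  have hD2 : ∀ z : ℂ, 0 < z.re → z ≠ 1 → Prim (fun z => -D (1 - z)) z := by
    rintro z hz h1 φ φ' θ hφ rfl
    have := (hD (1 - φ θ) (by simpa using hz) (sub_ne_zero.2 h1.symm) _ _ θ (hφ.const_sub 1)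
      rfl).neg
    rwa [eta_symm, neg_neg] at this
  have heq : ∀ z : ℂ, 0 < z.re → z.re < 1 → D z = -D (1 - z) := by
    intro z h1 h2
    have hφ : ∀ θ : ℝ, HasDerivAt (fun s : ℝ => (1 / 2 : ℂ) + s * (z - 1 / 2)) (z - 1 / 2) θ := by
      intro θ
      simpa using ((Complex.ofRealCLM.hasDerivAt (x := θ)).mul_const (z - 1 / 2)).const_add (1 / 2)
    have key : ∀ θ ∈ Set.uIcc (0 : ℝ) 1, HasDerivAt
        (fun s : ℝ => D (1 / 2 + s * (z - 1 / 2)) - -D (1 - (1 / 2 + s * (z - 1 / 2)))) 0 θ := by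
      intro θ hθ
      rw [Set.uIcc_of_le zero_le_one] at hθ
      have e : ((1 / 2 : ℂ) + θ * (z - 1 / 2)).re = 1 / 2 + θ * (z.re - 1 / 2) := by simp
      have a1 : 0 < ((1 / 2 : ℂ) + θ * (z - 1 / 2)).re := by rw [e]; nlinarith [hθ.1, hθ.2]
      have a2 : ((1 / 2 : ℂ) + θ * (z - 1 / 2)).re < 1 := by rw [e]; nlinarith [hθ.1, hθ.2]
      have b1 := hD _ a2 (fun h => by rw [h] at a1; simp at a1) _ _ θ (hφ θ) rfl
      have b2 := hD2 _ a1 (fun h => by rw [h] at a2; simp at a2) _ _ θ (hφ θ) rfl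
      exact (b1.sub b2).congr_deriv (sub_self _)
    have := intervalIntegral.integral_eq_sub_of_hasDerivAt key (by simp)
    have e : (1 - 1 / 2 : ℂ) = 1 / 2 := by ring
    simp only [intervalIntegral.integral_zero, ofReal_one, one_mul, add_sub_cancel, ofReal_zero,
      zero_mul, add_zero, e, h0] at this
    linarith
  refine ⟨fun z => if z.re < 1 then D z else -D (1 - z), ?_⟩
  rintro z z0 z1 φ φ' θ hφ rfl
  have hc : ContinuousAt (fun s => (φ s).re) θ := continuous_re.continuousAt.comp hφ.continuousAt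
  by_cases h : (φ θ).re < 1
  · refine (hD _ h z0 _ _ θ hφ rfl).congr_of_eventuallyEq ?_
    filter_upwards [hc.eventually_lt continuousAt_const h] with s hs
    rw [if_pos hs]
  · have h' : 0 < (φ θ).re := by linarith [not_lt.1 h]
    refine (hD2 _ h' z1 _ _ θ hφ rfl).congr_of_eventuallyEq ?_
    filter_upwards [continuousAt_const.eventually_lt hc h'] with s hs
    split_ifs with h1
    · exact heq _ hs h1
    · rfl

end Pool.Agent.MP_f3836a_nt.H23
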