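import Mathlib

/-!
Milnor `K₂` of a field (Matsumoto's presentation), tame symbols at discrete valuations, and the
subgroup of elements killed by all tame symbols.
-/

namespace Pool.Agent.MP_f3836a_nt.H23

open scoped TensorProduct WithZero

/-- The subgroup of `Fˣ ⊗ Fˣ` generated by the elements `a ⊗ b` with `a + b = 1`. -/
def steinberg (F : Type) [Field F] : Submodule ℤ (Additive Fˣ ⊗[ℤ] Additive Fˣ) :=
  Submodule.span ℤ
    {z | ∃ a b : Fˣ, (a : F) + (b : F) = 1 ∧ z = Additive.ofMul a ⊗ₜ[ℤ] Additive.ofMul b}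

/-- `K₂(F) = Fˣ ⊗ Fˣ / ⟨a ⊗ (1 - a)⟩`. -/
def K2 (F : Type) [Field F] : Type := (Additive Fˣ ⊗[ℤ] Additive Fˣ) ⧸ steinberg F

/-- The quotient group structure on `K₂(F)`. -/
noncomputable instance k2Group (F : Type) [Field F] : AddCommGroup (K2 F) :=
  Submodule.Quotient.addCommGroup (steinberg F)

variable {F : Type} [Field F]

/-- The additive order of `a` at `v` (positive on the maximal ideal). -/
noncomputable def ord (v : Valuation F ℤᵐ⁰) (a : Fˣ) : ℤ := -WithZero.log (v (a : F))

theorem v_ne (v : Valuation F ℤᵐ⁰) (a : Fˣ) : v (a : F) ≠ 0 := by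
  simp

theorem ord_mul (v : Valuation F ℤᵐ⁰) (a b : Fˣ) : ord v (a * b) = ord v a + ord v b := by
  simp only [ord, Units.val_mul, map_mul]
  rw [WithZero.log_mul (v_ne v a) (v_ne v b)]
  ring

theorem v_eq_exp (v : Valuation F ℤᵐ⁰) (a : Fˣ) : v (a : F) = WithZero.exp (-ord v a) := by
  simp only [ord, neg_neg]
  rw [WithZero.exp_log (v_ne v a)]

theorem mem_unitGroup (v : Valuation F ℤᵐ⁰) (u : Fˣ) :
    u ∈ v.valuationSubring.unitGroup ↔ v (u : F) = 1 := by
  rw [ValuationSubring.mem_unitGroup_iff]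
  exact ((Valuation.isEquiv_valuation_valuationSubring v).eq_one_iff_eq_one).symm

theorem v_core (v : Valuation F ℤᵐ⁰) (a b : Fˣ) :
    v (((-1) ^ (ord v a * ord v b) * a ^ ord v b * b ^ (-ord v a) : Fˣ) : F) = 1 := by
  simp only [Units.val_mul, Units.val_zpow_eq_zpow_val, map_mul, map_zpow₀, Units.val_neg,
    Units.val_one, Valuation.map_neg, map_one, one_zpow, one_mul]
  rw [v_eq_exp v a, v_eq_exp v b, ← WithZero.exp_zsmul, ← WithZero.exp_zsmul, ← WithZero.exp_add,
    ← WithZero.exp_zero]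
  congr 1
  simp only [smul_eq_mul]
  ring

/-- The unit `(-1)^(ord a * ord b) * a^(ord b) * b^(-ord a)` of the valuation ring of `v`. -/
noncomputable def tameUnit (v : Valuation F ℤᵐ⁰) (a b : Fˣ) : v.valuationSubring.unitGroup :=
  ⟨(-1) ^ (ord v a * ord v b) * a ^ ord v b * b ^ (-ord v a),
    (mem_unitGroup v _).2 (v_core v a b)⟩

theorem tameUnit_mul_left (v : Valuation F ℤᵐ⁰) (a a' b : Fˣ) :
    tameUnit v (a * a') b = tameUnit v a b * tameUnit v a' b := by
  apply Subtype.ext
  simp only [tameUnit, Subgroup.coe_mul, ord_mul, add_mul, neg_add, zpow_add, mul_zpow]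
  simp only [mul_assoc, mul_comm, mul_left_comm]

theorem tameUnit_mul_right (v : Valuation F ℤᵐ⁰) (a b b' : Fˣ) :
    tameUnit v a (b * b') = tameUnit v a b * tameUnit v a b' := by
  apply Subtype.ext
  simp only [tameUnit, Subgroup.coe_mul, ord_mul, mul_add, zpow_add, mul_zpow]
  simp only [mul_assoc, mul_comm, mul_left_comm]

/-- The residue class of a unit of a valuation ring, in the unit group of the residue field written
additively. -/
noncomputable def resUnit (A : ValuationSubring F) (u : A.unitGroup) :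
    Additive (IsLocalRing.ResidueField A)ˣ :=
  Additive.ofMul (A.unitGroupToResidueFieldUnits u)

/-- The residue class of `tameUnit v a b` in the residue field of `v`. -/
noncomputable def tameRes (v : Valuation F ℤᵐ⁰) (a b : Fˣ) :
    Additive (IsLocalRing.ResidueField v.valuationSubring)ˣ :=
  resUnit v.valuationSubring (tameUnit v a b)

theorem tameRes_mul_left (v : Valuation F ℤᵐ⁰) (a a' b : Fˣ) :
    tameRes v (a * a') b = tameRes v a b + tameRes v a' b := by
  simp only [tameRes, resUnit, tameUnit_mul_left, map_mul, ofMul_mul]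

theorem tameRes_mul_right (v : Valuation F ℤᵐ⁰) (a b b' : Fˣ) :
    tameRes v a (b * b') = tameRes v a b + tameRes v a b' := by
  simp only [tameRes, resUnit, tameUnit_mul_right, map_mul, ofMul_mul]

theorem res_eq_one (v : Valuation F ℤᵐ⁰) (u : v.valuationSubring.unitGroup) :
    v.valuationSubring.unitGroupToResidueFieldUnits u = 1 ↔ v (((u : Fˣ) : F) - 1) < 1 := by
  rw [← MonoidHom.mem_ker, ValuationSubring.ker_unitGroupToResidueFieldUnits, Subgroup.mem_comap,
    ValuationSubring.mem_principalUnitGroup_iff]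
  exact ((Valuation.isEquiv_valuation_valuationSubring v).lt_one_iff_lt_one).symm

theorem v_zpow_sub_one (v : Valuation F ℤᵐ⁰) {u : Fˣ} (h : v ((u : F) - 1) < 1) (n : ℤ) :
    v (((u ^ n : Fˣ) : F) - 1) < 1 := by
  have e := Valuation.isEquiv_valuation_valuationSubring v
  have h1 : u ∈ v.valuationSubring.principalUnitGroup := e.lt_one_iff_lt_one.1 h
  exact e.lt_one_iff_lt_one.2 (Subgroup.zpow_mem _ h1 n)

theorem ord_eq_zero (v : Valuation F ℤᵐ⁰) {a : Fˣ} (h : v (a : F) = 1) : ord v a = 0 := by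
  simp [ord, h]

theorem v_eq_one_of (v : Valuation F ℤᵐ⁰) {a : F} (h : v (a - 1) < 1) : v a = 1 := by
  simpa using v.map_one_add_of_lt h

theorem tameRes_steinberg (v : Valuation F ℤᵐ⁰) (a b : Fˣ) (h : (a : F) + (b : F) = 1) :
    tameRes v a b = 0 := by
  change v.valuationSubring.unitGroupToResidueFieldUnits (tameUnit v a b) = 1
  rw [res_eq_one]
  have ha : (a : F) - 1 = -b := by linear_combination h
  have hb : (b : F) - 1 = -a := by linear_combination h
  rcases lt_trichotomy (v (a : F)) 1 with h1 | h1 | h1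
  · have h2 : v ((b : F) - 1) < 1 := by rwa [hb, Valuation.map_neg]
    have h3 := ord_eq_zero v (v_eq_one_of v h2)
    simpa [tameUnit, h3] using v_zpow_sub_one v h2 (-ord v a)
  · have h3 := ord_eq_zero v h1
    rcases lt_trichotomy (v (b : F)) 1 with h2 | h2 | h2
    · have h4 : v ((a : F) - 1) < 1 := by rwa [ha, Valuation.map_neg]
      simpa [tameUnit, h3] using v_zpow_sub_one v h4 (ord v b)
    · simp [tameUnit, h3, ord_eq_zero v h2]
    · exfalso
      have : v (b : F) ≤ 1 := by
        have e : (b : F) = 1 - a := by linear_combination h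
        rw [e]
        exact v.map_sub_le (by simp) h1.le
      exact absurd h2 (not_lt.2 this)
  · have h2 : v (b : F) = v (a : F) := by
      have e : (b : F) = -(a - 1) := by linear_combination h
      rw [e, Valuation.map_neg, v.map_sub_eq_of_lt_left (by simpa using h1)]
    have h3 : ord v b = ord v a := by simp [ord, h2]
    have h4 : v (((-(a * b⁻¹) : Fˣ) : F) - 1) < 1 := by
      have e : (((-(a * b⁻¹) : Fˣ) : F) - 1) = -((b : F)⁻¹) := by
        have := b.ne_zero
        simp only [Units.val_neg, Units.val_mul, Units.val_inv_eq_inv_val]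
        field_simp
        linear_combination -h
      rw [e, Valuation.map_neg, map_inv₀, h2]
      exact inv_lt_one_of_one_lt₀ h1
    have h5 := v_zpow_sub_one v h4 (ord v a)
    have e : ((tameUnit v a b : v.valuationSubring.unitGroup) : Fˣ) =
        (-(a * b⁻¹)) ^ ord v a := by
      simp only [tameUnit, h3]
      rw [neg_eq_neg_one_mul (a * b⁻¹), mul_zpow, mul_zpow, inv_zpow', mul_assoc]
      congr 1
      rcases Int.even_or_odd (ord v a) with he | he
      · rw [he.neg_one_zpow, (he.mul_right _).neg_one_zpow]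
      · rw [he.neg_one_zpow, (he.mul he).neg_one_zpow]
    rw [e]
    exact h5

/-- The additive map `b ↦ β a b`. -/
def rowMap {A : Type} [AddCommGroup A] (β : Fˣ → Fˣ → A)
    (h2 : ∀ a b b', β a (b * b') = β a b + β a b') (a : Additive Fˣ) : Additive Fˣ →ₗ[ℤ] A :=
  (AddMonoidHom.mk' (fun b : Additive Fˣ => β a.toMul b.toMul)
    (fun b b' => h2 a.toMul b.toMul b'.toMul)).toIntLinearMap

theorem rowMap_add {A : Type} [AddCommGroup A] (β : Fˣ → Fˣ → A)
    (h1 : ∀ a a' b, β (a * a') b = β a b + β a' b) (h2 : ∀ a b b', β a (b * b') = β a b + β a b')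
    (a a' : Additive Fˣ) : rowMap β h2 (a + a') = rowMap β h2 a + rowMap β h2 a' :=
  LinearMap.ext fun b => h1 a.toMul a'.toMul b.toMul

/-- The bilinear map `(a, b) ↦ β a b`. -/
def bilMap {A : Type} [AddCommGroup A] (β : Fˣ → Fˣ → A)
    (h1 : ∀ a a' b, β (a * a') b = β a b + β a' b) (h2 : ∀ a b b', β a (b * b') = β a b + β a b') :
    Additive Fˣ →ₗ[ℤ] Additive Fˣ →ₗ[ℤ] A :=
  (AddMonoidHom.mk' (rowMap β h2) (rowMap_add β h1 h2)).toIntLinearMap

/-- The map `a ⊗ b ↦ β a b`. -/
noncomputable def tenMap {A : Type} [AddCommGroup A] (β : Fˣ → Fˣ → A)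
    (h1 : ∀ a a' b, β (a * a') b = β a b + β a' b) (h2 : ∀ a b b', β a (b * b') = β a b + β a b') :
    (Additive Fˣ ⊗[ℤ] Additive Fˣ) →ₗ[ℤ] A :=
  TensorProduct.lift (bilMap β h1 h2)

theorem steinberg_le_ker {A : Type} [AddCommGroup A] (β : Fˣ → Fˣ → A)
    (h1 : ∀ a a' b, β (a * a') b = β a b + β a' b) (h2 : ∀ a b b', β a (b * b') = β a b + β a b')
    (h3 : ∀ a b : Fˣ, (a : F) + (b : F) = 1 → β a b = 0) :
    steinberg F ≤ LinearMap.ker (tenMap β h1 h2) :=
  Submodule.span_le.2 (by
    rintro _ ⟨a, b, h, rfl⟩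
    exact h3 a b h)

/-- The homomorphism `K₂(F) → A` sending the symbol `{a, b}` to `β a b`, for a bimultiplicative
`β` that vanishes when `a + b = 1`. -/
noncomputable def liftK2 {A : Type} [AddCommGroup A] (β : Fˣ → Fˣ → A)
    (h1 : ∀ a a' b, β (a * a') b = β a b + β a' b) (h2 : ∀ a b b', β a (b * b') = β a b + β a b')
    (h3 : ∀ a b : Fˣ, (a : F) + (b : F) = 1 → β a b = 0) : K2 F →ₗ[ℤ] A :=
  (steinberg F).liftQ (tenMap β h1 h2) (steinberg_le_ker β h1 h2 h3)

/-- The tame symbol `K₂(F) → κ(v)ˣ`, sending the symbol `{a, b}` to `tameRes v a b`. -/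
noncomputable def tame (v : Valuation F ℤᵐ⁰) :
    K2 F →ₗ[ℤ] Additive (IsLocalRing.ResidueField v.valuationSubring)ˣ :=
  liftK2 (tameRes v) (tameRes_mul_left v) (tameRes_mul_right v) (tameRes_steinberg v)

/-- The elements of `K₂(F)` whose tame symbol is trivial at every discrete valuation of `F`. -/
noncomputable def K2ur (F : Type) [Field F] : Submodule ℤ (K2 F) :=
  ⨅ v : Valuation F ℤᵐ⁰, LinearMap.ker (tame v)

/-- The rank of the abelian group `K2ur F`. -/
noncomputable def rankK2ur (F : Type) [Field F] : Cardinal := Module.rank ℤ (K2ur F)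

end Pool.Agent.MP_f3836a_nt.H23
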