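import Mathlib

namespace Pool.Agent.MP_f3836a_nt.H23

open Polynomial IntermediateField

theorem exists_ratHom {K L : Type} [Field K] [Field L] [Algebra K L] (x : L)
    (hx : Transcendental K x) :
    ∃ φ : RatFunc K →ₐ[K] L, ∀ g : K[X], φ (algebraMap K[X] (RatFunc K) g) = aeval x g := by
  refine ⟨(K⟮x⟯.val).comp (RatFunc.algEquivOfTranscendental x hx).toAlgHom, fun g => ?_⟩
  have := RatFunc.algEquivOfTranscendental_algebraMap x hx g
  change (K⟮x⟯.val) (RatFunc.algEquivOfTranscendental x hx _) = _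
  rw [this, ← aeval_algHom_apply]
  rfl

theorem exists_eval {K F : Type} [Field K] [Field F] [Algebra K F] [Algebra K ℂ] (p q : K[X])
    (hp : p.natDegree = 3) (hq : q.natDegree = 2) (x w : F) (hx : Transcendental K x)
    (hgen : adjoin K {x, w} = ⊤) (hE : w ^ 2 * aeval x q = aeval x p) (z ω : ℂ)
    (hz : Transcendental K z) (hE' : ω ^ 2 * aeval z q = aeval z p) :
    ∃ e : F →ₐ[K] ℂ, e x = z ∧ e w = ω := by
  obtain ⟨φ, hφ⟩ := exists_ratHom x hx
  obtain ⟨ψ, hψ⟩ := exists_ratHom z hz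
  have p0 : p ≠ 0 := by rintro rfl; simp at hp
  have q0 : q ≠ 0 := by rintro rfl; simp at hq
  have p1 : algebraMap K[X] (RatFunc K) p ≠ 0 := RatFunc.algebraMap_ne_zero p0
  have q1 : algebraMap K[X] (RatFunc K) q ≠ 0 := RatFunc.algebraMap_ne_zero q0
  set c : RatFunc K := algebraMap K[X] (RatFunc K) p / algebraMap K[X] (RatFunc K) q with hc
  have hns : ∀ b : RatFunc K, b ^ 2 ≠ c := by
    intro b hb
    have b0 : b ≠ 0 := by
      rintro rfl
      exact div_ne_zero p1 q1 (by rw [← hc, ← hb]; simp)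
    have := congrArg RatFunc.intDegree hb
    rw [sq, RatFunc.intDegree_mul b0 b0, hc, RatFunc.intDegree_div p1 q1,
      RatFunc.intDegree_polynomial, RatFunc.intDegree_polynomial, hp, hq] at this
    omega
  let : Algebra (RatFunc K) F := φ.toRingHom.toAlgebra
  let : Algebra (RatFunc K) ℂ := ψ.toRingHom.toAlgebra
  have : IsScalarTower K (RatFunc K) F := IsScalarTower.of_algebraMap_eq fun k => (φ.commutes k).symm
  have : IsScalarTower K (RatFunc K) ℂ := IsScalarTower.of_algebraMap_eq fun k => (ψ.commutes k).symm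
  have hirr := X_pow_sub_C_irreducible_of_prime Nat.prime_two hns
  have hw : aeval w (X ^ 2 - C c : (RatFunc K)[X]) = 0 := by
    have : algebraMap (RatFunc K) F c = aeval x p / aeval x q := by
      change φ c = _
      rw [hc, map_div₀, hφ, hφ]
    have q2 : aeval x q ≠ 0 := by rw [← hφ]; simpa using q1
    rw [map_sub, map_pow, aeval_X, aeval_C, this, ← hE]
    field_simp
    ring
  have hω : aeval ω (X ^ 2 - C c : (RatFunc K)[X]) = 0 := by
    have : algebraMap (RatFunc K) ℂ c = aeval z p / aeval z q := by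
      change ψ c = _
      rw [hc, map_div₀, hψ, hψ]
    have q2 : aeval z q ≠ 0 := by rw [← hψ]; simpa using q1
    rw [map_sub, map_pow, aeval_X, aeval_C, this, ← hE']
    field_simp
    ring
  have hm : (X ^ 2 - C c : (RatFunc K)[X]).Monic := monic_X_pow_sub_C c two_ne_zero
  have hmin := minpoly.eq_of_irreducible_of_monic hirr hw hm
  have hxX : x = algebraMap (RatFunc K) F (algebraMap K[X] (RatFunc K) X) := by
    change x = φ _
    rw [hφ, aeval_X]
  have htop : adjoin (RatFunc K) {w} = ⊤ := by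
    rw [eq_top_iff]
    intro y _
    have h1 : adjoin K {x, w} ≤ (adjoin (RatFunc K) {w}).restrictScalars K := by
      rw [adjoin_le_iff]
      rintro s (rfl | rfl)
      · rw [hxX]
        exact IntermediateField.algebraMap_mem (adjoin (RatFunc K) {w}) _
      · exact mem_adjoin_simple_self (RatFunc K) s
    exact h1 (hgen ▸ mem_top)
  obtain ⟨e, he⟩ := exists_algHom_of_adjoin_splits_of_aeval (F := RatFunc K) (K := ℂ)
    (S := {w}) (x := w) (y := ω)
    (by
      rintro s rfl
      exact ⟨⟨_, hm, hw⟩, IsAlgClosed.splits _⟩) htop (hmin ▸ hω)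
  refine ⟨e.restrictScalars K, ?_, he⟩
  change e x = z
  rw [hxX, e.commutes]
  change ψ _ = _
  rw [hψ, aeval_X]

theorem contDiff_eval {K F : Type} [Field K] [Field F] [Algebra K F] [Algebra K ℂ] (x w : F)
    (hgen : adjoin K {x, w} = ⊤) (ev : ℝ → F →ₐ[K] ℂ) (h1 : ContDiff ℝ 1 fun θ => ev θ x)
    (h2 : ContDiff ℝ 1 fun θ => ev θ w) (f : F) : ContDiff ℝ 1 fun θ => ev θ f := by
  have hf : f ∈ adjoin K {x, w} := hgen ▸ mem_top
  induction hf using adjoin_induction with
  | mem s hs =>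
    rcases hs with rfl | rfl
    exacts [h1, h2]
  | algebraMap k => simpa using contDiff_const
  | add a b _ _ ha hb => simpa using ha.add hb
  | inv a _ ha =>
    by_cases h0 : a = 0
    · simpa [h0] using contDiff_const
    · simp only [map_inv₀]
      exact ha.inv fun θ => by simpa using h0
  | mul a b _ _ ha hb => simpa using ha.mul hb

theorem eval_ext {K F : Type} [Field K] [Field F] [Algebra K F] [Algebra K ℂ] (x w : F)
    (hgen : adjoin K {x, w} = ⊤) (e e' : F →ₐ[K] ℂ) (h1 : e x = e' x) (h2 : e w = e' w) (f : F) :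
    e f = e' f := by
  have hf : f ∈ adjoin K {x, w} := hgen ▸ mem_top
  induction hf using adjoin_induction with
  | mem s hs =>
    rcases hs with rfl | rfl
    exacts [h1, h2]
  | algebraMap k => simp
  | add a b _ _ ha hb => simp [ha, hb]
  | inv a _ ha => simp [ha]
  | mul a b _ _ ha hb => simp [ha, hb]

theorem exists_radius {a b : ℝ} (ha : 0 ≤ a) (hab : a < b) :
    ∃ R : ℝ, a < R ∧ R < b ∧ ∀ z : ℂ, ‖z‖ = R → Transcendental ℚ z := by
  have hc : ((fun R : ℝ => ((R : ℂ) ^ 2)) ⁻¹' {y : ℂ | IsAlgebraic ℚ y} ∩ Set.Ioi 0).Countable := by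
    refine Set.MapsTo.countable_of_injOn (f := fun R : ℝ => ((R : ℂ) ^ 2))
      (t := {y : ℂ | IsAlgebraic ℚ y}) (fun R hR => hR.1) ?_ (Algebraic.countable ℚ ℂ)
    intro R hR S hS h
    have h' : (R : ℂ) ^ 2 = (S : ℂ) ^ 2 := h
    have : R ^ 2 = S ^ 2 := by exact_mod_cast h'
    exact (pow_left_inj₀ (le_of_lt hR.2) (le_of_lt hS.2) two_ne_zero).1 this
  obtain ⟨R, h1, h2⟩ := (hc.dense_compl ℝ).exists_between hab
  refine ⟨R, h2.1, h2.2, fun z hz halg => h1 ⟨?_, ha.trans_lt h2.1⟩⟩
  have h3 : IsAlgebraic ℚ ((starRingEnd ℂ) z) := halg.algHom (starRingEnd ℂ).toRatAlgHom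
  have h4 := halg.mul h3
  rw [Complex.mul_conj, Complex.normSq_eq_norm_sq, hz] at h4
  simpa using h4

end Pool.Agent.MP_f3836a_nt.H23
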