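import Pool.Agent.MP_f3836a_nt.H23.Reg
import Pool.Agent.MP_f3836a_nt.H23.Eval

namespace Pool.Agent.MP_f3836a_nt.H23

open Complex Filter Topology Real

/-- The ratio `w² / x²` on the curve. -/
noncomputable def psi (z τ : ℂ) : ℂ := ((z + 1) - τ * (z - 1) * z⁻¹) * ((z + 1) - τ * z * (z - 1))⁻¹

/-- The `x`-coordinate of the loop. -/
noncomputable def fX (R : ℝ) (p : ℝ × ℂ) : ℂ := circleMap 0 R p.1

/-- The `w`-coordinate of the loop. -/
noncomputable def fW (R : ℝ) (p : ℝ × ℂ) : ℂ :=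
  fX R p * Complex.exp (Complex.log (psi (fX R p) p.2) / 2)

variable {R : ℝ}

theorem norm_fX (h0 : 0 < R) (p : ℝ × ℂ) : ‖fX R p‖ = R := by
  simp [fX, abs_of_pos h0]

theorem fX_ne (h0 : 0 < R) (p : ℝ × ℂ) : fX R p ≠ 0 := by
  intro h
  have := norm_fX h0 p
  rw [h, norm_zero] at this
  exact h0.ne this

theorem fX_add (h0 : 0 < R) (h1 : R ≠ 1) (p : ℝ × ℂ) : fX R p + 1 ≠ 0 := by
  intro h
  have := norm_fX h0 p
  rw [eq_neg_of_add_eq_zero_left h] at this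
  exact h1 (by simpa using this.symm)

theorem fX_sub (h0 : 0 < R) (h1 : R ≠ 1) (p : ℝ × ℂ) : fX R p - 1 ≠ 0 := by
  intro h
  have := norm_fX h0 p
  rw [sub_eq_zero.1 h] at this
  exact h1 (by simpa using this.symm)

theorem contDiff_fX : ContDiff ℝ 1 (fX R) := (contDiff_circleMap 0 R).comp contDiff_fst

theorem psi_zero {z : ℂ} (h : z + 1 ≠ 0) : psi z 0 = 1 := by
  simp [psi, mul_inv_cancel₀ h]

theorem fW_zero (h0 : 0 < R) (h1 : R ≠ 1) (θ : ℝ) : fW R (θ, 0) = fX R (θ, 0) := by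
  simp [fW, psi_zero (fX_add h0 h1 _)]

theorem contDiffAt_psi (h0 : 0 < R) {p : ℝ × ℂ}
    (hd : (fX R p + 1) - p.2 * fX R p * (fX R p - 1) ≠ 0) :
    ContDiffAt ℝ 1 (fun p : ℝ × ℂ => psi (fX R p) p.2) p := by
  have a : ContDiffAt ℝ 1 (fX R) p := contDiff_fX.contDiffAt
  have b : ContDiffAt ℝ 1 (fun p : ℝ × ℂ => p.2) p := contDiffAt_snd
  have c : ContDiffAt ℝ 1 (fun _ : ℝ × ℂ => (1 : ℂ)) p := contDiffAt_const
  exact ((a.add c).sub ((b.mul (a.sub c)).mul (a.inv (fX_ne h0 p)))).mul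
    (((a.add c).sub ((b.mul a).mul (a.sub c))).inv hd)

theorem contDiffAt_fW (h0 : 0 < R) {p : ℝ × ℂ}
    (hd : (fX R p + 1) - p.2 * fX R p * (fX R p - 1) ≠ 0) (hs : psi (fX R p) p.2 ∈ slitPlane) :
    ContDiffAt ℝ 1 (fW R) p := by
  have a : ContDiffAt ℝ 1 (fun p : ℝ × ℂ => Complex.log (psi (fX R p) p.2)) p :=
    ContDiffAt.comp (g := Complex.log) (f := fun p : ℝ × ℂ => psi (fX R p) p.2) p
      ((Complex.contDiffAt_log hs).restrict_scalars ℝ) (contDiffAt_psi h0 hd)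
  have b : ContDiffAt ℝ 1 (fun p : ℝ × ℂ => Complex.log (psi (fX R p) p.2) / 2) p := a.div_const _
  exact contDiff_fX.contDiffAt.mul
    ((Complex.contDiff_exp (𝕜 := ℝ)).contDiffAt.comp p b)

theorem cd_fW (h0 : 0 < R) (h1 : R ≠ 1) (θ : ℝ) : ContDiffAt ℝ 1 (fW R) (θ, 0) :=
  contDiffAt_fW h0 (by simpa using fX_add h0 h1 _) (by simp [psi_zero (fX_add h0 h1 _)])

theorem ev_good (h0 : 0 < R) (h1 : R ≠ 1) : ∀ᶠ τ in 𝓝 (0 : ℂ), ∀ θ : ℝ,
    (fX R (θ, τ) + 1) - τ * fX R (θ, τ) * (fX R (θ, τ) - 1) ≠ 0 ∧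
      psi (fX R (θ, τ)) τ ∈ slitPlane := by
  have h : ∀ᶠ τ in 𝓝 (0 : ℂ), ∀ θ ∈ Set.Icc 0 (2 * π),
      (fX R (θ, τ) + 1) - τ * fX R (θ, τ) * (fX R (θ, τ) - 1) ≠ 0 ∧
        psi (fX R (θ, τ)) τ ∈ slitPlane := by
    apply isCompact_Icc.eventually_forall_of_forall_eventually
      (P := fun τ θ => (fX R (θ, τ) + 1) - τ * fX R (θ, τ) * (fX R (θ, τ) - 1) ≠ 0 ∧
        psi (fX R (θ, τ)) τ ∈ slitPlane)
    intro θ _
    have a2 : Tendsto (Prod.swap : ℂ × ℝ → ℝ × ℂ) (𝓝 (0, θ)) (𝓝 (θ, 0)) :=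
      continuous_swap.tendsto _
    have hd : (fX R (θ, 0) + 1) - (θ, (0 : ℂ)).2 * fX R (θ, 0) * (fX R (θ, 0) - 1) ≠ 0 := by
      simpa using fX_add h0 h1 _
    have c0 : Continuous (fX R) := contDiff_fX.continuous
    have c1 : ContinuousAt (fun p : ℝ × ℂ => (fX R p + 1) - p.2 * fX R p * (fX R p - 1)) (θ, 0) :=
      Continuous.continuousAt (by fun_prop)
    have c2 := (contDiffAt_psi h0 hd).continuousAt.eventually_mem
      (isOpen_slitPlane.mem_nhds (by simp [psi_zero (fX_add h0 h1 _)]))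
    filter_upwards [a2.eventually (c1.eventually_ne hd), a2.eventually c2] with p p1 p2
    exact ⟨p1, p2⟩
  filter_upwards [h] with τ hτ θ
  obtain ⟨θ', h1, h2⟩ := (periodic_circleMap 0 R).exists_mem_Ico₀ Real.two_pi_pos θ
  have e : fX R (θ, τ) = fX R (θ', τ) := h2
  rw [e]
  exact hτ θ' (Set.Ico_subset_Icc_self h1)

theorem fW_sq (h0 : 0 < R) {p : ℝ × ℂ}
    (hd : (fX R p + 1) - p.2 * fX R p * (fX R p - 1) ≠ 0) (hs : psi (fX R p) p.2 ∈ slitPlane) :
    fW R p ^ 2 * ((fX R p + 1) - p.2 * fX R p * (fX R p - 1)) =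
      fX R p ^ 2 * (fX R p + 1) - p.2 * fX R p * (fX R p - 1) := by
  have e : Complex.exp (Complex.log (psi (fX R p) p.2) / 2) ^ 2 = psi (fX R p) p.2 := by
    rw [sq, ← Complex.exp_add, add_halves, Complex.exp_log (slitPlane_ne_zero hs)]
  have := fX_ne h0 p
  rw [fW, mul_pow, e, psi, mul_assoc, mul_assoc, inv_mul_cancel₀ hd]
  field_simp

open Polynomial in
theorem exists_ev (h0 : 0 < R) (h1 : R ≠ 1) (hR : ∀ z : ℂ, ‖z‖ = R → Transcendental ℚ z) :
    ∀ᶠ τ in 𝓝 (0 : ℂ), ∀ (K : Type) [Field K] [NumberField K] (F : Type) [Field F] [Algebra K F]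
      (t : K) (x w : F) (σ : K →+* ℂ), σ t = τ → t ≠ 0 → Transcendental K x →
      IntermediateField.adjoin K {x, w} = ⊤ →
      algebraMap K F t * x * (x - 1) * (w ^ 2 - 1) = (x + 1) * (w ^ 2 - x ^ 2) →
      ∃ ev : ℝ → F →+* ℂ, (∀ f, ContDiff ℝ 1 fun θ => ev θ f) ∧ (∀ f, ev (2 * π) f = ev 0 f) ∧
        (∀ θ, ev θ (algebraMap K F t) = τ) ∧ (∀ θ, ev θ x = fX R (θ, τ)) ∧
        ∀ θ, ev θ w = fW R (θ, τ) := by
  filter_upwards [ev_good h0 h1] with τ hτ K _ _ F _ _ t x w σ hσ ht hx hgen hE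
  let : Algebra K ℂ := σ.toAlgebra
  have hst : algebraMap K ℂ t = τ := hσ
  have : IsScalarTower ℚ K ℂ := IsScalarTower.of_algebraMap_eq fun q => by simp
  have hp : (X ^ 2 * (X + 1) - C t * X * (X - 1) : K[X]).natDegree = 3 := by compute_degree!
  have hq : ((X + 1) - C t * X * (X - 1) : K[X]).natDegree = 2 := by compute_degree!
  have key : ∀ θ : ℝ, ∃ e : F →ₐ[K] ℂ, e x = fX R (θ, τ) ∧ e w = fW R (θ, τ) := by
    intro θ
    refine exists_eval _ _ hp hq x w hx hgen ?_ _ _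
      ((hR _ (norm_fX h0 _)).extendScalars K) ?_
    · simp only [map_sub, map_mul, map_add, map_pow, aeval_X, aeval_C, map_one]
      linear_combination -hE
    · simp only [map_sub, map_mul, map_add, map_pow, aeval_X, aeval_C, map_one, hst]
      exact fW_sq h0 (hτ θ).1 (hτ θ).2
  choose ev e1 e2 using key
  refine ⟨fun θ => (ev θ).toRingHom, contDiff_eval x w hgen ev ?_ ?_, eval_ext x w hgen _ _ ?_ ?_,
    fun θ => ((ev θ).commutes t).trans hst, e1, e2⟩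
  · simp only [e1]
    exact contDiff_fX.comp (contDiff_id.prodMk contDiff_const)
  · simp only [e2]
    rw [contDiff_iff_contDiffAt]
    intro θ
    exact (contDiffAt_fW h0 (hτ θ).1 (hτ θ).2).comp (f := fun θ : ℝ => (θ, τ)) θ
      (contDiff_id.prodMk contDiff_const).contDiffAt
  · rw [e1, e1]
    simpa [fX] using periodic_circleMap 0 R 0
  · have : fX R (2 * π, τ) = fX R (0, τ) := by simpa [fX] using periodic_circleMap 0 R 0
    rw [e2, e2, fW, fW, this]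

theorem nice_X (h0 : 0 < R) : Nice (fX R) := fun _ => ⟨contDiff_fX.contDiffAt, fX_ne h0 _⟩

theorem nice_Xp (h0 : 0 < R) (h1 : R ≠ 1) : Nice fun p => fX R p + 1 :=
  fun _ => ⟨contDiff_fX.contDiffAt.add contDiffAt_const, fX_add h0 h1 _⟩

theorem nice_Xm (h0 : 0 < R) (h1 : R ≠ 1) : Nice fun p => fX R p - 1 :=
  fun _ => ⟨contDiff_fX.contDiffAt.sub contDiffAt_const, fX_sub h0 h1 _⟩

theorem nice_Wp (h0 : 0 < R) (h1 : R ≠ 1) : Nice fun p => fW R p + 1 :=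
  fun θ => ⟨(cd_fW h0 h1 θ).add contDiffAt_const, by
    simp only [fW_zero h0 h1]; exact fX_add h0 h1 _⟩

theorem nice_Wm (h0 : 0 < R) (h1 : R ≠ 1) : Nice fun p => fW R p - 1 :=
  fun θ => ⟨(cd_fW h0 h1 θ).sub contDiffAt_const, by
    simp only [fW_zero h0 h1]; exact fX_sub h0 h1 _⟩

theorem nice_WX (h0 : 0 < R) (h1 : R ≠ 1) : Nice fun p => fW R p + fX R p :=
  fun θ => ⟨(cd_fW h0 h1 θ).add contDiff_fX.contDiffAt, by
    simp only [fW_zero h0 h1]
    rw [← two_mul]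
    exact mul_ne_zero two_ne_zero (fX_ne h0 _)⟩

theorem Nice.neg {Φ : ℝ × ℂ → ℂ} (h : Nice Φ) : Nice fun p => -Φ p :=
  fun θ => ⟨(h θ).1.neg, neg_ne_zero.2 (h θ).2⟩

theorem good_X (h0 : 0 < R) : Good fun θ => fX R (θ, 0) :=
  ⟨contDiff_fX.comp (contDiff_id.prodMk contDiff_const), fun _ => fX_ne h0 _⟩

theorem wind_X (h0 : 0 < R) : wind (fun θ => fX R (θ, 0)) = 2 * π := by
  have : ∀ θ : ℝ, (dl (fun θ => fX R (θ, 0)) θ).im = 1 := by
    intro θ
    have e : deriv (fun θ => fX R (θ, 0)) θ = fX R (θ, 0) * I := by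
      have := deriv_circleMap 0 R θ
      exact this
    rw [dl, e, mul_div_cancel_left₀ _ (fX_ne h0 _), I_im]
  simp [wind, this]

theorem per_X : fX R (2 * π, 0) = fX R (0, 0) := by simpa [fX] using periodic_circleMap 0 R 0

theorem wind_small (h0 : 0 < R) (h1 : R < 1) :
    wind (fun θ => (fX R (θ, 0) + fX R (θ, 0)) / (fX R (θ, 0) + 1)) = 2 * π := by
  have g := good_X h0
  have hne := fun θ : ℝ => fX_add h0 h1.ne (θ, 0)
  have g2 : Good fun θ => (fX R (θ, 0) + 1) / 2 :=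
    ⟨(g.1.add contDiff_const).div_const _, fun θ => div_ne_zero (hne θ) two_ne_zero⟩
  have g3 : Good fun θ => (fX R (θ, 0) + fX R (θ, 0)) / (fX R (θ, 0) + 1) :=
    ⟨by
      simp only [div_eq_mul_inv]
      exact (g.1.add g.1).mul ((g.1.add contDiff_const).inv hne), fun θ => div_ne_zero (by
        rw [← two_mul]; exact mul_ne_zero two_ne_zero (g.2 θ)) (hne θ)⟩
  have w2 := wind_slit g2 (fun θ => Or.inl (by
    have a := Complex.abs_re_le_norm (fX R (θ, 0))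
    rw [norm_fX h0] at a
    have := (abs_le.1 a).1
    simp only [div_ofNat_re, add_re, one_re]
    linarith)) (by simp only [per_X])
  have w3 := wind_mul g3 g2
  have e : (fun θ => (fX R (θ, 0) + fX R (θ, 0)) / (fX R (θ, 0) + 1) * ((fX R (θ, 0) + 1) / 2)) =
      fun θ => fX R (θ, 0) := by
    funext θ
    have := hne θ
    field_simp
    ring
  rw [e, wind_X h0, w2, add_zero] at w3
  exact w3.symm

theorem wind_big (h1 : 1 < R) :
    wind (fun θ => (fX R (θ, 0) + fX R (θ, 0)) / (fX R (θ, 0) + 1)) = 0 := by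
  have h0 : 0 < R := zero_lt_one.trans h1
  have g := good_X h0
  have hne := fun θ : ℝ => fX_add h0 h1.ne' (θ, 0)
  have g3 : Good fun θ => (fX R (θ, 0) + fX R (θ, 0)) / (fX R (θ, 0) + 1) :=
    ⟨by
      simp only [div_eq_mul_inv]
      exact (g.1.add g.1).mul ((g.1.add contDiff_const).inv hne), fun θ => div_ne_zero (by
        rw [← two_mul]; exact mul_ne_zero two_ne_zero (g.2 θ)) (hne θ)⟩
  refine wind_slit g3 (fun θ => Or.inl ?_) (by simp only [per_X])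
  have a := Complex.abs_re_le_norm (fX R (θ, 0))
  have b := Complex.normSq_eq_norm_sq (fX R (θ, 0))
  rw [norm_fX h0] at a b
  have c := (abs_le.1 a).1
  have d := Complex.normSq_pos.2 (hne θ)
  rw [Complex.div_re, ← add_div]
  apply div_pos _ d
  rw [Complex.normSq_apply] at b
  simp only [add_re, one_re, add_im, one_im, add_zero]
  nlinarith

end Pool.Agent.MP_f3836a_nt.H23
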