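import Pool.Agent.MP_f3836a_nt.H23.Main

namespace Pool.Agent.MP_f3836a_nt.H23

open Complex Filter Topology Real
open scoped WithZero

theorem v_unit {F : Type} [Field F] {T : F} (h0 : T ≠ 0) (h1 : IsIntegral ℤ T)
    (h2 : IsIntegral ℤ T⁻¹) (v : Valuation F ℤᵐ⁰) : v T = 1 := by
  have k : ∀ a : F, IsIntegral ℤ a → v a ≤ 1 := fun a ha =>
    (Valuation.integer.integers v).mem_of_integral (ha.tower_top (A := v.integer))
  have a := k _ h2
  rw [map_inv₀, inv_le_one₀ (by simpa [zero_lt_iff] using h0)] at a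
  exact le_antisymm (k _ h1) a

theorem mem_one {K F : Type} [Field K] [CharZero K] [Field F] [Algebra K F] {t : K} {x w : F}
    (ht : t ≠ 0) (hx : Transcendental K x) (hv : ∀ v : Valuation F ℤᵐ⁰, v (algebraMap K F t) = 1)
    (hE : algebraMap K F t * x * (x - 1) * (w ^ 2 - 1) = (x + 1) * (w ^ 2 - x ^ 2)) :
    sy ((w - x) / 2) ((w + x) / 2) + sy ((w - x) / 2) ((w + x) / 2) ∈ K2ur F := by
  obtain ⟨a1, a2, a3, a4, a5, a6, a7⟩ := nonvan ht hx hE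
  have : CharZero F := charZero_of_injective_algebraMap (algebraMap K F).injective
  rw [sy_eq (div_ne_zero a7 two_ne_zero) (div_ne_zero a6 two_ne_zero)]
  refine two_sym_mem _ _ fun v => ?_
  have e1 : (w - x) / 2 = (1 - x) / 2 - (1 - w) / 2 := by ring
  have e2 : (w + x) / 2 = 1 - (1 - x) / 2 - (1 - w) / 2 := by ring
  simp only [Units.val_mk0]
  rw [e1, e2]
  refine tm_one v (hv v) (by rw [← e1]; exact div_ne_zero a7 two_ne_zero) ?_
  linear_combination (1 / 8 : F) * hE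

theorem mem_two {K F : Type} [Field K] [CharZero K] [Field F] [Algebra K F] {t : K} {x w : F}
    (ht : t ≠ 0) (hx : Transcendental K x) (hv : ∀ v : Valuation F ℤᵐ⁰, v (algebraMap K F t) = 1)
    (hE : algebraMap K F t * x * (x - 1) * (w ^ 2 - 1) = (x + 1) * (w ^ 2 - x ^ 2)) :
    sy ((w - x) / (x + 1)) ((w + x) / (x + 1)) + sy ((w - x) / (x + 1)) ((w + x) / (x + 1)) ∈
      K2ur F := by
  obtain ⟨a1, a2, a3, a4, a5, a6, a7⟩ := nonvan ht hx hE
  have : CharZero F := charZero_of_injective_algebraMap (algebraMap K F).injective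
  rw [sy_eq (by positivity) (by positivity)]
  refine two_sym_mem _ _ fun v => ?_
  simp only [Units.val_mk0]
  refine tm_two v (hv v) (by positivity) (by positivity) ?_
  field_simp
  linear_combination (2 : F) * hE

theorem abs_four {a b c d p q δ n1 n2 n3 n4 : ℝ} (ha : |a - p| < δ) (hb : |b - q| < δ)
    (hc : |c| < δ) (hd : |d| < δ) (h : n1 * a + n2 * b + n3 * c + n4 * d = 0) :
    |n1 * p + n2 * q| ≤ δ * (|n1| + |n2| + |n3| + |n4|) := by
  have k : ∀ n e : ℝ, |e| < δ → |n * e| ≤ δ * |n| := fun n e he => by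
    rw [abs_mul, mul_comm]
    exact mul_le_mul_of_nonneg_right he.le (abs_nonneg n)
  have e : n1 * p + n2 * q = -(n1 * (a - p) + n2 * (b - q) + n3 * c + n4 * d) := by
    linear_combination h
  rw [e, abs_neg]
  have h1 := abs_le.1 (k n1 _ ha)
  have h2 := abs_le.1 (k n2 _ hb)
  have h3 := abs_le.1 (k n3 _ hc)
  have h4 := abs_le.1 (k n4 _ hd)
  rw [abs_le]
  constructor <;> linarith [h1.1, h1.2, h2.1, h2.2, h3.1, h3.2, h4.1, h4.2]

theorem main : ∃ ε : ℝ, 0 < ε ∧ ∀ (K : Type) [Field K] [NumberField K] (t : K), t ≠ 0 →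
    IsIntegral ℤ t → IsIntegral ℤ t⁻¹ → ∀ σ₁ σ₂ : K →+* ℂ, ‖σ₁ t‖ < ε → ‖σ₂ t⁻¹‖ < ε →
    ∀ (F : Type) [Field F] [Algebra K F] (x w : F), Transcendental K x →
      IntermediateField.adjoin K {x, w} = ⊤ →
      algebraMap K F t * x * (x - 1) * (w ^ 2 - 1) = (x + 1) * (w ^ 2 - x ^ 2) →
      4 ≤ Module.rank ℤ (K2ur F) := by
  obtain ⟨R₁, r1, r2, r3⟩ := exists_radius (a := 0) (b := 1) le_rfl zero_lt_one
  obtain ⟨R₂, s1, -, s3⟩ := exists_radius (a := 1) (b := 2) zero_le_one one_lt_two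
  have l1 := loc r1 r2.ne r3 (c := 1) (by rw [wind_small r1 r2]; exact div_self two_pi_pos.ne')
    (δ := 1 / 10) (by norm_num)
  have l2 := loc (zero_lt_one.trans s1) s1.ne' s3 (c := 0) (by rw [wind_big s1, zero_div])
    (δ := 1 / 10) (by norm_num)
  obtain ⟨ε, hε, hl⟩ := Metric.mem_nhdsWithin_iff.1 (l1.and l2)
  refine ⟨ε, hε, ?_⟩
  intro K _ _ t ht i1 i2 σ₁ σ₂ n1 n2 F _ _ x w hx hgen hE
  obtain ⟨a1, a2, a3, a4, a5, a6, a7⟩ := nonvan ht hx hE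
  have : CharZero F := charZero_of_injective_algebraMap (algebraMap K F).injective
  have a9 : algebraMap K F t ≠ 0 := by simpa using ht
  have ht' : t⁻¹ ≠ 0 := inv_ne_zero ht
  have hx' : Transcendental K (-x⁻¹) := fun h => hx (by simpa using h.neg.inv)
  have hgen' : IntermediateField.adjoin K {-x⁻¹, w * x⁻¹} = ⊤ := by
    rw [eq_top_iff, ← hgen, IntermediateField.adjoin_le_iff]
    have m1 : -x⁻¹ ∈ IntermediateField.adjoin K {-x⁻¹, w * x⁻¹} :=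
      IntermediateField.subset_adjoin _ _ (by simp)
    have m2 : w * x⁻¹ ∈ IntermediateField.adjoin K {-x⁻¹, w * x⁻¹} :=
      IntermediateField.subset_adjoin _ _ (by simp)
    have m3 : x ∈ IntermediateField.adjoin K {-x⁻¹, w * x⁻¹} := by
      simpa using inv_mem (neg_mem m1)
    rintro s (rfl | rfl)
    · exact m3
    · simpa [a1] using mul_mem m2 m3
  have hE' : algebraMap K F t⁻¹ * (-x⁻¹) * (-x⁻¹ - 1) * ((w * x⁻¹) ^ 2 - 1) =
      (-x⁻¹ + 1) * ((w * x⁻¹) ^ 2 - (-x⁻¹) ^ 2) := by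
    rw [map_inv₀]
    field_simp
    linear_combination -hE
  have hv : ∀ v : Valuation F ℤᵐ⁰, v (algebraMap K F t) = 1 := fun v =>
    v_unit a9 (i1.map (algebraMap K F).toIntAlgHom)
      (by simpa using i2.map (algebraMap K F).toIntAlgHom) v
  have hv' : ∀ v : Valuation F ℤᵐ⁰, v (algebraMap K F t⁻¹) = 1 := fun v => by
    rw [map_inv₀, map_inv₀, hv, inv_one]
  obtain ⟨p1, p2⟩ := hl ⟨show σ₁ t ∈ Metric.ball 0 ε by simpa using n1, by simpa using ht⟩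
  obtain ⟨q1, q2⟩ := hl ⟨show σ₂ t⁻¹ ∈ Metric.ball 0 ε by simpa using n2, by simpa using ht⟩
  obtain ⟨ρ1, b1, b2, b3, b4, -, -⟩ := p1 K F t x w σ₁ rfl ht hx hgen hE
  obtain ⟨ρ2, c1, c2, c3, c4, -, -⟩ := p2 K F t x w σ₁ rfl ht hx hgen hE
  obtain ⟨ρ3, d1, d2, -, -, d3, d4⟩ := q1 K F t⁻¹ _ _ σ₂ rfl ht' hx' hgen' hE'
  obtain ⟨ρ4, f1, f2, -, -, f3, f4⟩ := q2 K F t⁻¹ _ _ σ₂ rfl ht' hx' hgen' hE'
  have m1 := mem_one ht hx hv hE
  have m2 := mem_two ht hx hv hE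
  have m3 := mem_one ht' hx' hv' hE'
  have m4 := mem_two ht' hx' hv' hE'
  have x1 : -x⁻¹ + 1 = (x - 1) / x := by field_simp; ring
  have x2 : -x⁻¹ - 1 = -(x + 1) / x := by field_simp; ring
  have u1 : (w * x⁻¹ - -x⁻¹) / 2 = (w + 1) / (2 * x) := by field_simp; ring
  have u2 : (w * x⁻¹ + -x⁻¹) / 2 = (w - 1) / (2 * x) := by field_simp; ring
  have u3 : (w * x⁻¹ - -x⁻¹) / (-x⁻¹ + 1) = (w + 1) / (x - 1) := by rw [x1]; field_simp; ring
  have u4 : (w * x⁻¹ + -x⁻¹) / (-x⁻¹ + 1) = (w - 1) / (x - 1) := by rw [x1]; field_simp; ring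
  have u5 : -(w * x⁻¹ - 1) / (2 * -x⁻¹) = (w - x) / 2 := by field_simp
  have u6 : -(w * x⁻¹ + 1) / (2 * -x⁻¹) = (w + x) / 2 := by field_simp
  have u7 : -(w * x⁻¹ - 1) / (-x⁻¹ - 1) = (w - x) / (x + 1) := by rw [x2]; field_simp
  have u8 : -(w * x⁻¹ + 1) / (-x⁻¹ - 1) = (w + x) / (x + 1) := by rw [x2]; field_simp
  rw [u1, u2] at d1 f1 m3
  rw [u3, u4] at d2 f2 m4
  rw [u5, u6] at d3 f3
  rw [u7, u8] at d4 f4
  generalize sy ((w - x) / 2) ((w + x) / 2) = γ1 at *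
  generalize sy ((w - x) / (x + 1)) ((w + x) / (x + 1)) = γ2 at *
  generalize sy ((w + 1) / (2 * x)) ((w - 1) / (2 * x)) = γ3 at *
  generalize sy ((w + 1) / (x - 1)) ((w - 1) / (x - 1)) = γ4 at *
  have li : LinearIndependent ℤ
      (![⟨γ1 + γ1, m1⟩, ⟨γ2 + γ2, m2⟩, ⟨γ3 + γ3, m3⟩, ⟨γ4 + γ4, m4⟩] : Fin 4 → K2ur F) := by
    rw [Fintype.linearIndependent_iff]
    intro g hg
    have hg' := congrArg Subtype.val hg
    simp only [Fin.sum_univ_four, Matrix.cons_val_zero, Matrix.cons_val_one, Matrix.cons_val,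
      Submodule.coe_add, Submodule.coe_smul_of_tower, ZeroMemClass.coe_zero] at hg'
    have k : ∀ ρ : K2 F →ₗ[ℤ] ℝ,
        (g 0 : ℝ) * ρ γ1 + (g 1 : ℝ) * ρ γ2 + (g 2 : ℝ) * ρ γ3 + (g 3 : ℝ) * ρ γ4 = 0 := by
      intro ρ
      have := congrArg ρ hg'
      simp only [map_add, map_zsmul, map_zero, zsmul_eq_mul] at this
      linarith
    have y1 := abs_le.1 (abs_four b1 b2 b3 b4 (k ρ1))
    have y2 := abs_four c1 c2 c3 c4 (k ρ2)
    have y3 := abs_le.1 (abs_four d1 d2 d3 d4 (n1 := g 2) (n2 := g 3) (n3 := g 0) (n4 := g 1)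
      (by linarith [k ρ3]))
    have y4 := abs_four f1 f2 f3 f4 (n1 := g 2) (n2 := g 3) (n3 := g 0) (n4 := g 1)
      (by linarith [k ρ4])
    simp only [mul_one, mul_zero, add_zero] at y1 y2 y3 y4
    have z2 := abs_le.1 y2
    have z4 := abs_le.1 y4
    have y5 : |(g 1 : ℝ)| ≤ 2 * (1 / 10 * (|(g 0 : ℝ)| + |(g 1 : ℝ)| + |(g 2 : ℝ)| + |(g 3 : ℝ)|)) := by
      rw [abs_le]
      constructor <;> linarith [y1.1, y1.2, z2.1, z2.2]
    have y6 : |(g 3 : ℝ)| ≤ 2 * (1 / 10 * (|(g 2 : ℝ)| + |(g 3 : ℝ)| + |(g 0 : ℝ)| + |(g 1 : ℝ)|)) := by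
      rw [abs_le]
      constructor <;> linarith [y3.1, y3.2, z4.1, z4.2]
    have w0 := abs_nonneg (g 0 : ℝ)
    have w1 := abs_nonneg (g 1 : ℝ)
    have w2 := abs_nonneg (g 2 : ℝ)
    have w3 := abs_nonneg (g 3 : ℝ)
    have g0 : |(g 0 : ℝ)| = 0 := by linarith
    have g1 : |(g 1 : ℝ)| = 0 := by linarith
    have g2 : |(g 2 : ℝ)| = 0 := by linarith
    have g3 : |(g 3 : ℝ)| = 0 := by linarith
    rw [abs_eq_zero, Int.cast_eq_zero] at g0 g1 g2 g3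
    intro i
    fin_cases i
    exacts [g0, g1, g2, g3]
  simpa using li.cardinal_le_rank

end Pool.Agent.MP_f3836a_nt.H23
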