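import Pool.Agent.MP_f3836a_nt.H23.Defs

namespace Pool.Agent.MP_f3836a_nt.H23

open scoped TensorProduct WithZero

variable {F : Type} [Field F]

/-- The symbol `{a, b}`. -/
def sym (a b : Fˣ) : K2 F := Submodule.Quotient.mk (Additive.ofMul a ⊗ₜ[ℤ] Additive.ofMul b)

theorem liftK2_sym {A : Type} [AddCommGroup A] (β : Fˣ → Fˣ → A)
    (h1 : ∀ a a' b, β (a * a') b = β a b + β a' b) (h2 : ∀ a b b', β a (b * b') = β a b + β a b')
    (h3 : ∀ a b : Fˣ, (a : F) + (b : F) = 1 → β a b = 0) (a b : Fˣ) :
    liftK2 β h1 h2 h3 (sym a b) = β a b := rfl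

theorem tameRes_eq_zero (v : Valuation F ℤᵐ⁰) (a b : Fˣ) :
    tameRes v a b = 0 ↔
      v ((((-1) ^ (ord v a * ord v b) * a ^ ord v b * b ^ (-ord v a) : Fˣ) : F) - 1) < 1 :=
  res_eq_one v (tameUnit v a b)

theorem tameRes_left (v : Valuation F ℤᵐ⁰) {a : Fˣ} (b : Fˣ) (h : v ((a : F) - 1) < 1) :
    tameRes v a b = 0 := by
  rw [tameRes_eq_zero]
  have h3 := ord_eq_zero v (v_eq_one_of v h)
  simpa [h3] using v_zpow_sub_one v h (ord v b)

theorem tameRes_right (v : Valuation F ℤᵐ⁰) (a : Fˣ) {b : Fˣ} (h : v ((b : F) - 1) < 1) :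
    tameRes v a b = 0 := by
  rw [tameRes_eq_zero]
  have h3 := ord_eq_zero v (v_eq_one_of v h)
  simpa [h3] using v_zpow_sub_one v h (-ord v a)

theorem tameRes_units (v : Valuation F ℤᵐ⁰) {a b : Fˣ} (ha : v (a : F) = 1) (hb : v (b : F) = 1) :
    tameRes v a b = 0 := by
  rw [tameRes_eq_zero]
  simp [ord_eq_zero v ha, ord_eq_zero v hb]

theorem tameRes_sq (v : Valuation F ℤᵐ⁰) (b : Fˣ) : tameRes v (b * b) b = 0 := by
  rw [tameRes_eq_zero]
  have e : ((-1) ^ (ord v (b * b) * ord v b) * (b * b) ^ ord v b * b ^ (-ord v (b * b)) : Fˣ) = 1 := by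
    rw [ord_mul, Even.neg_one_zpow (Even.mul_right ⟨_, rfl⟩ _), mul_zpow, ← zpow_add, one_mul,
      ← zpow_add]
    simp
  rw [e]
  simp

/-- The alternative that makes the square of a tame symbol trivial. -/
def Tm {Γ : Type} [LinearOrderedCommGroupWithZero Γ] (v : Valuation F Γ) (f g : F) : Prop :=
  (v f = 1 ∧ v g = 1) ∨ v (f ^ 2 - 1) < 1 ∨ v (g ^ 2 - 1) < 1 ∨ v (f ^ 2 - g ^ 2) < v (g ^ 2)

theorem two_tameRes (v : Valuation F ℤᵐ⁰) (a b : Fˣ) (h : Tm v (a : F) (b : F)) :
    tameRes v a b + tameRes v a b = 0 := by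
  rcases h with h | h | h | h
  · rw [tameRes_units v h.1 h.2, add_zero]
  · rw [← tameRes_mul_left]
    exact tameRes_left v b (by simpa [sq] using h)
  · rw [← tameRes_mul_right]
    exact tameRes_right v a (by simpa [sq] using h)
  · rw [← tameRes_mul_left]
    have e : a * a = (a * a * (b * b)⁻¹) * (b * b) := by group
    rw [e, tameRes_mul_left, tameRes_sq, add_zero]
    apply tameRes_left
    have hb := b.ne_zero
    have e2 : ((a * a * (b * b)⁻¹ : Fˣ) : F) - 1 = ((a : F) ^ 2 - (b : F) ^ 2) / (b : F) ^ 2 := by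
      simp only [Units.val_mul, Units.val_inv_eq_inv_val]
      field_simp
    rw [e2, map_div₀, div_lt_one₀ (by simpa [pos_iff_ne_zero] using hb)]
    exact h

theorem two_sym_mem (a b : Fˣ) (h : ∀ v : Valuation F ℤᵐ⁰, Tm v (a : F) (b : F)) :
    sym a b + sym a b ∈ K2ur F := by
  rw [K2ur, Submodule.mem_iInf]
  intro v
  rw [LinearMap.mem_ker, map_add]
  exact two_tameRes v a b (h v)

section val

variable {Γ : Type} [LinearOrderedCommGroupWithZero Γ] (v : Valuation F Γ)

theorem v_max {f g : F} (h : ¬ v (f ^ 2 - g ^ 2) < v (g ^ 2)) :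
    v (g - f) = max (v f) (v g) ∧ v (f + g) = max (v f) (v g) := by
  rcases lt_trichotomy (v f) (v g) with h1 | h1 | h1
  · rw [max_eq_right h1.le]
    exact ⟨v.map_sub_eq_of_lt_left h1, v.map_add_eq_of_lt_right h1⟩
  · have e : f ^ 2 - g ^ 2 = -((g - f) * (f + g)) := by ring
    rw [e, Valuation.map_neg, map_mul, sq, map_mul, not_lt] at h
    have a1 : v (g - f) ≤ v g := v.map_sub_le le_rfl h1.le
    have a2 : v (f + g) ≤ v g := v.map_add_le h1.le le_rfl
    rw [h1, max_self]
    by_cases h0 : v g = 0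
    · rw [h0] at a1 a2 ⊢
      exact ⟨le_zero_iff.1 a1, le_zero_iff.1 a2⟩
    have hp : 0 < v g := zero_lt_iff.2 h0
    constructor
    · refine le_antisymm a1 ?_
      exact le_of_mul_le_mul_right (h.trans (mul_le_mul_right a2 _)) hp
    · refine le_antisymm a2 ?_
      exact le_of_mul_le_mul_left (h.trans (mul_le_mul_left a1 _)) hp
  · rw [max_eq_left h1.le]
    exact ⟨v.map_sub_eq_of_lt_right h1, v.map_add_eq_of_lt_left h1⟩

theorem v_two_le : v (2 : F) ≤ 1 := by
  have : (2 : F) = 1 + 1 := by norm_num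
  rw [this]
  exact v.map_add_le (by simp) (by simp)

theorem sq_of_sub {g : F} (h : v (1 - g) < 1) : v (g ^ 2 - 1) < 1 := by
  have e : g ^ 2 - 1 = -((1 - g) * (2 - (1 - g))) := by ring
  rw [e, Valuation.map_neg, map_mul]
  exact mul_lt_one_of_lt_of_le h (v.map_sub_le (v_two_le v) h.le)

theorem sq_of_add {g : F} (h : v (1 + g) < 1) : v (g ^ 2 - 1) < 1 := by
  have := sq_of_sub v (g := -g) (by simpa using h)
  simpa using this

theorem lt_one_or {a b : Γ} (h : a * b < 1) : a < 1 ∨ b < 1 := by
  by_contra hc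
  push Not at hc
  exact absurd h (not_lt.2 (one_le_mul hc.1 hc.2))

theorem tm_two {t f g : F} (ht : v t = 1) (hf : f ≠ 0) (hg : g ≠ 0)
    (E : t * (g - f) * (1 + f - g) * (1 - g) * (1 + f) = f * g * (2 + f - g)) : Tm v f g := by
  by_cases h4 : v (f ^ 2 - g ^ 2) < v (g ^ 2)
  · exact Or.inr (Or.inr (Or.inr h4))
  obtain ⟨m1, -⟩ := v_max v h4
  have E' := congrArg v E
  simp only [map_mul, ht, one_mul] at E'
  have pf : 0 < v f := by simpa [zero_lt_iff] using hf
  have pg : 0 < v g := by simpa [zero_lt_iff] using hg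
  have e1 : 1 + f - g = 1 - (g - f) := by ring
  have e2 : 2 + f - g = 2 - (g - f) := by ring
  rw [e1, e2] at E'
  set M := max (v f) (v g) with hM
  have pM : 0 < M := lt_max_of_lt_left pf
  rcases lt_trichotomy M 1 with h | h | h
  · exfalso
    have a1 : v f < 1 := (le_max_left _ _).trans_lt h
    have a2 : v g < 1 := (le_max_right _ _).trans_lt h
    rw [v.map_one_sub_of_lt (m1 ▸ h), v.map_one_sub_of_lt a2, v.map_one_add_of_lt a1, m1] at E'
    simp only [mul_one] at E'
    have a3 : v (2 - (g - f)) ≤ 1 := v.map_sub_le (v_two_le v) (m1 ▸ h.le)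
    have a4 : v f * v g * v (2 - (g - f)) ≤ M * M * 1 :=
      mul_le_mul' (mul_le_mul' (le_max_left _ _) (le_max_right _ _)) a3
    rw [← E', mul_one] at a4
    have : M * 1 ≤ M * M := by simpa using a4
    exact absurd h (not_lt.2 (le_of_mul_le_mul_left this pM))
  · have a1 : v f ≤ 1 := (le_max_left _ _).trans h.le
    have a2 : v g ≤ 1 := (le_max_right _ _).trans h.le
    have a3 : v (2 - (g - f)) ≤ 1 := v.map_sub_le (v_two_le v) (m1 ▸ h.le)
    rw [m1, h, one_mul] at E'
    rcases a1.lt_or_eq with b1 | b1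
    · rw [v.map_one_add_of_lt b1, mul_one] at E'
      have c : v (1 - (g - f)) * v (1 - g) < 1 := by
        rw [E']
        exact mul_lt_one_of_lt_of_le (mul_lt_one_of_lt_of_le b1 a2) a3
      refine Or.inr (Or.inr (Or.inl (sq_of_sub v ?_)))
      rcases lt_one_or c with c | c
      · have e : 1 - g = (1 - (g - f)) - f := by ring
        rw [e]
        exact v.map_sub_lt c b1
      · exact c
    rcases a2.lt_or_eq with b2 | b2
    · rw [v.map_one_sub_of_lt b2, mul_one] at E'
      have c : v (1 - (g - f)) * v (1 + f) < 1 := by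
        rw [E', mul_comm (v f)]
        exact mul_lt_one_of_lt_of_le (mul_lt_one_of_lt_of_le b2 a1) a3
      refine Or.inr (Or.inl (sq_of_add v ?_))
      rcases lt_one_or c with c | c
      · have e : 1 + f = (1 - (g - f)) + g := by ring
        rw [e]
        exact v.map_add_lt c b2
      · exact c
    exact Or.inl ⟨b1, b2⟩
  · have a1 : v (1 - (g - f)) = M := by
      rw [← m1]; exact v.map_sub_eq_of_lt_right (by simpa [m1] using h)
    have a2 : v (2 - (g - f)) = M := by
      rw [← m1]; exact v.map_sub_eq_of_lt_right ((v_two_le v).trans_lt (m1 ▸ h))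
    rw [a1, a2, m1] at E'
    have E2 : M * v (1 - g) * v (1 + f) = v f * v g := by
      apply mul_right_cancel₀ pM.ne'
      rw [← E']
      simp only [mul_assoc, mul_comm, mul_left_comm]
    by_cases b1 : 1 < v f
    · have c1 : v (1 + f) = v f := v.map_add_eq_of_lt_right (by simpa using b1)
      rw [c1, mul_comm (v f)] at E2
      have E3 : M * v (1 - g) = v g := mul_right_cancel₀ pf.ne' E2
      by_cases b2 : 1 < v g
      · exfalso
        have c2 : v (1 - g) = v g := v.map_sub_eq_of_lt_right (by simpa using b2)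
        rw [c2] at E3
        have : M = 1 := mul_right_cancel₀ pg.ne' (by simpa using E3)
        exact h.ne' this
      · refine Or.inr (Or.inr (Or.inl (sq_of_sub v ?_)))
        by_contra hc
        have : M * 1 ≤ v g := E3 ▸ mul_le_mul_right (not_lt.1 hc) M
        exact b2 (h.trans_le (by simpa using this))
    · have b2 : 1 < v g := by
        rcases lt_max_iff.1 h with c | c
        · exact absurd c b1
        · exact c
      have c2 : v (1 - g) = v g := v.map_sub_eq_of_lt_right (by simpa using b2)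
      rw [c2, mul_right_comm] at E2
      have E3 : M * v (1 + f) = v f := mul_right_cancel₀ pg.ne' E2
      refine Or.inr (Or.inl (sq_of_add v ?_))
      by_contra hc
      have : M * 1 ≤ v f := E3 ▸ mul_le_mul_right (not_lt.1 hc) M
      exact b1 (h.trans_le (by simpa using this))

theorem aux_one {r s a : F} (ha : v a < 1) (hs : s = r - a)
    (E : v r * v s * v (1 - s) = v (1 - r) * v a) :
    (v r < 1 ∧ v s < 1) ∨ (v (1 - r) < 1 ∧ v (1 - s) < 1) := by
  by_cases h : 1 < v r
  · exfalso
    have a1 : v s = v r := by rw [hs]; exact v.map_sub_eq_of_lt_left (ha.trans h)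
    have a2 : v (1 - s) = v r := by
      rw [← a1]; exact v.map_sub_eq_of_lt_right (by simpa [a1] using h)
    have a3 : v (1 - r) = v r := v.map_sub_eq_of_lt_right (by simpa using h)
    rw [a1, a2, a3, mul_assoc] at E
    have E2 : v r * v r = v a := mul_left_cancel₀ (zero_lt_one.trans h).ne' E
    exact absurd ha (not_lt.2 (E2 ▸ one_le_mul h.le h.le))
  · have h1 : v r ≤ 1 := not_lt.1 h
    have a3 : v (1 - r) ≤ 1 := v.map_sub_le (by simp) h1
    have c : v r * v s * v (1 - s) < 1 := by
      rw [E, mul_comm]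
      exact mul_lt_one_of_lt_of_le ha a3
    rcases lt_one_or c with c | c
    · left
      rcases lt_one_or c with c | c
      · exact ⟨c, by rw [hs]; exact v.map_sub_lt c ha⟩
      · refine ⟨?_, c⟩
        have e : r = s + a := by rw [hs]; ring
        rw [e]
        exact v.map_add_lt c ha
    · right
      refine ⟨?_, c⟩
      have e : 1 - r = (1 - s) - a := by rw [hs]; ring
      rw [e]
      exact v.map_sub_lt c ha

theorem tm_one {t r s : F} (ht : v t = 1) (hA : r - s ≠ 0)
    (E : t * (1 - 2 * r) * r * s * (1 - s) = (1 - r) * (r - s) * (1 - r - s)) :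
    Tm v (r - s) (1 - r - s) := by
  by_cases h4 : v ((r - s) ^ 2 - (1 - r - s) ^ 2) < v ((1 - r - s) ^ 2)
  · exact Or.inr (Or.inr (Or.inr h4))
  obtain ⟨m1, m2⟩ := v_max v h4
  have e1 : 1 - r - s - (r - s) = 1 - 2 * r := by ring
  have e2 : r - s + (1 - r - s) = 1 - 2 * s := by ring
  rw [e1] at m1
  rw [e2] at m2
  have E' := congrArg v E
  simp only [map_mul, ht, one_mul] at E'
  have pf : 0 < v (r - s) := by simpa [zero_lt_iff] using hA
  set M := max (v (r - s)) (v (1 - r - s)) with hM
  have pM : 0 < M := lt_max_of_lt_left pf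
  have hab : v (r - s) * v (1 - r - s) ≤ M * M := mul_le_mul' (le_max_left _ _) (le_max_right _ _)
  rw [m1] at E'
  rcases lt_trichotomy M 1 with h | h | h
  · exfalso
    have k : ∀ z : F, v (1 - 2 * z) < 1 → v 2 * v z = 1 ∧ v 2 * v (1 - z) = 1 := by
      intro z hz
      constructor
      · have e : 2 * z = 1 - (1 - 2 * z) := by ring
        rw [← map_mul, e]
        exact v.map_one_sub_of_lt hz
      · have e : 2 * (1 - z) = 1 + (1 - 2 * z) := by ring
        rw [← map_mul, e]
        exact v.map_one_add_of_lt hz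
    obtain ⟨r1, r2⟩ := k r (m1 ▸ h)
    obtain ⟨s1, s2⟩ := k s (m2 ▸ h)
    have E2 : M * (v 2 * v r) * (v 2 * v s) * (v 2 * v (1 - s)) =
        (v 2 * v (1 - r)) * (v 2 * v 2) * (v (r - s) * v (1 - r - s)) := by
      have := congrArg (fun z => v (2 : F) * v 2 * v 2 * z) E'
      simpa only [mul_assoc, mul_comm, mul_left_comm] using this
    rw [r1, r2, s1, s2] at E2
    simp only [mul_one, one_mul] at E2
    have a4 : M * 1 ≤ M * M := by
      rw [mul_one]
      calc M = _ := E2
        _ ≤ (1 * 1) * (M * M) := mul_le_mul' (mul_le_mul' (v_two_le v) (v_two_le v)) hab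
        _ = M * M := by simp
    exact absurd h (not_lt.2 (le_of_mul_le_mul_left a4 pM))
  · have a1 : v (r - s) ≤ 1 := (le_max_left _ _).trans h.le
    have a2 : v (1 - r - s) ≤ 1 := (le_max_right _ _).trans h.le
    rw [h, one_mul] at E'
    rcases a1.lt_or_eq with b1 | b1
    · have b2 : v (1 - r - s) = 1 := by
        rcases max_eq_iff.1 h with c | c
        · exact absurd c.1 b1.ne
        · exact c.1
      rw [b2, mul_one] at E'
      refine Or.inr (Or.inr (Or.inl ?_))
      rcases aux_one v b1 (by ring) E' with c | c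
      · apply sq_of_sub
        have e : 1 - (1 - r - s) = r + s := by ring
        rw [e]
        exact v.map_add_lt c.1 c.2
      · apply sq_of_add
        have e : 1 + (1 - r - s) = (1 - r) + (1 - s) := by ring
        rw [e]
        exact v.map_add_lt c.1 c.2
    rcases a2.lt_or_eq with b2 | b2
    · rw [b1, mul_one] at E'
      have b3 : v (-(1 - r - s)) < 1 := by rwa [Valuation.map_neg]
      have E2 : v r * v (1 - s) * v (1 - (1 - s)) = v (1 - r) * v (-(1 - r - s)) := by
        rw [Valuation.map_neg, sub_sub_cancel, ← E', mul_right_comm]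
      refine Or.inr (Or.inl ?_)
      rcases aux_one v b3 (by ring) E2 with c | c
      · apply sq_of_add
        have e : 1 + (r - s) = r + (1 - s) := by ring
        rw [e]
        exact v.map_add_lt c.1 c.2
      · apply sq_of_sub
        have e : 1 - (r - s) = (1 - r) + (1 - (1 - s)) := by ring
        rw [e]
        exact v.map_add_lt c.1 c.2
    exact Or.inl ⟨b1, b2⟩
  · exfalso
    have k : ∀ z : F, v (1 - 2 * z) = M → M ≤ v z ∧ v 2 * v z = M := by
      intro z hz
      have e : 2 * z = 1 - (1 - 2 * z) := by ring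
      have : v 2 * v z = M := by
        rw [← map_mul, e, ← hz]
        exact v.map_sub_eq_of_lt_right (by simpa [hz] using h)
      refine ⟨?_, this⟩
      rw [← this]
      simpa using mul_le_mul_left (v_two_le v) (v z)
    obtain ⟨r1, -⟩ := k r m1
    obtain ⟨s1, -⟩ := k s m2
    have a1 : v (1 - r) = v r := v.map_sub_eq_of_lt_right (by simpa using h.trans_le r1)
    have a2 : v (1 - s) = v s := v.map_sub_eq_of_lt_right (by simpa using h.trans_le s1)
    rw [a1, a2] at E'
    have pr : 0 < v r := pM.trans_le r1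
    have E2 : M * (v s * v s) = v (r - s) * v (1 - r - s) := by
      apply mul_left_cancel₀ pr.ne'
      rw [← mul_assoc (v r) (v (r - s)), ← E']
      simp only [mul_assoc, mul_comm, mul_left_comm]
    rw [← E2] at hab
    have a3 : v s * v s ≤ M := le_of_mul_le_mul_left hab pM
    have a4 : M * M ≤ M * 1 := by
      rw [mul_one]
      exact (mul_le_mul' s1 s1).trans a3
    exact absurd h (not_lt.2 (le_of_mul_le_mul_left a4 pM))

end val

end Pool.Agent.MP_f3836a_nt.H23
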