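import Pool.Agent.MP_f3836a_nt.H23.Fam

namespace Pool.Agent.MP_f3836a_nt.H23

open Complex Filter Topology Real
open scoped WithZero

open Classical in
/-- The symbol of two field elements (zero if one of them vanishes). -/
noncomputable def sy {F : Type} [Field F] (f g : F) : K2 F :=
  if h : f ≠ 0 ∧ g ≠ 0 then sym (Units.mk0 f h.1) (Units.mk0 g h.2) else 0

theorem sy_eq {F : Type} [Field F] {f g : F} (hf : f ≠ 0) (hg : g ≠ 0) :
    sy f g = sym (Units.mk0 f hf) (Units.mk0 g hg) := dif_pos ⟨hf, hg⟩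

theorem log_tendsto : Tendsto (fun τ : ℂ => 2 * π * Real.log ‖τ‖) (𝓝[≠] 0) atBot := by
  apply Tendsto.const_mul_atBot Real.two_pi_pos
  refine Real.tendsto_log_nhdsNE_zero.comp ?_
  refine tendsto_nhdsWithin_iff.2 ⟨?_, ?_⟩
  · exact (continuous_norm.tendsto' (0 : ℂ) 0 norm_zero).mono_left nhdsWithin_le_nhds
  · filter_upwards [self_mem_nhdsWithin] with τ hτ
    simpa using hτ

theorem ev_small {Φ Ψ : ℝ × ℂ → ℂ} (h : Nice Φ) (h' : Nice Ψ) {δ : ℝ} (hδ : 0 < δ) :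
    ∀ᶠ τ in 𝓝[≠] (0 : ℂ), |(2 * π * Real.log ‖τ‖)⁻¹ *
      reg (fun s => Φ (s, τ)) fun s => Ψ (s, τ)| < δ := by
  have a := ((tendsto_reg h h').mono_left (nhdsWithin_le_nhds (s := {0}ᶜ))).div_atBot log_tendsto
  filter_upwards [a.eventually (Metric.ball_mem_nhds 0 hδ)] with τ hτ
  rw [mul_comm, ← div_eq_mul_inv]
  simpa [Real.dist_eq, abs_div] using hτ

theorem ev_main {Φ Ψ : ℝ × ℂ → ℂ} (h : Nice Φ) (h' : Nice Ψ) {δ : ℝ} (hδ : 0 < δ) :
    ∀ᶠ τ in 𝓝[≠] (0 : ℂ), |(2 * π * Real.log ‖τ‖)⁻¹ *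
      (Real.log ‖τ‖ * wind (fun s => Ψ (s, τ)) + reg (fun s => Φ (s, τ)) fun s => Ψ (s, τ)) -
        wind (fun s => Ψ (s, 0)) / (2 * π)| < δ := by
  have a := ((tendsto_wind h').mono_left (nhdsWithin_le_nhds (s := {0}ᶜ))).div_const (2 * π)
  filter_upwards [a.eventually (Metric.ball_mem_nhds _ (half_pos hδ)), ev_small h h' (half_pos hδ),
    log_tendsto.eventually (eventually_lt_atBot 0)] with τ h1 h2 h3
  have l0 : Real.log ‖τ‖ ≠ 0 := by
    intro c
    rw [c, mul_zero] at h3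
    exact lt_irrefl _ h3
  have e : (2 * π * Real.log ‖τ‖)⁻¹ *
      (Real.log ‖τ‖ * wind (fun s => Ψ (s, τ)) + reg (fun s => Φ (s, τ)) fun s => Ψ (s, τ)) -
        wind (fun s => Ψ (s, 0)) / (2 * π) =
      (wind (fun s => Ψ (s, τ)) / (2 * π) - wind (fun s => Ψ (s, 0)) / (2 * π)) +
        (2 * π * Real.log ‖τ‖)⁻¹ * reg (fun s => Φ (s, τ)) fun s => Ψ (s, τ) := by
    have := Real.pi_pos.ne'
    field_simp
    ring
  rw [e]
  rw [Real.dist_eq] at h1
  linarith [abs_add_le (wind (fun s => Ψ (s, τ)) / (2 * π) - wind (fun s => Ψ (s, 0)) / (2 * π))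
    ((2 * π * Real.log ‖τ‖)⁻¹ * reg (fun s => Φ (s, τ)) fun s => Ψ (s, τ))]

theorem nonvan {K F : Type} [Field K] [Field F] [Algebra K F] {t : K} {x w : F} (ht : t ≠ 0)
    (hx : Transcendental K x)
    (hE : algebraMap K F t * x * (x - 1) * (w ^ 2 - 1) = (x + 1) * (w ^ 2 - x ^ 2)) :
    x ≠ 0 ∧ x + 1 ≠ 0 ∧ x - 1 ≠ 0 ∧ w + 1 ≠ 0 ∧ w - 1 ≠ 0 ∧ w + x ≠ 0 ∧ w - x ≠ 0 := by
  have a1 : x ≠ 0 := fun h => hx (h ▸ isAlgebraic_zero)
  have a2 : x + 1 ≠ 0 := fun h => hx (eq_neg_of_add_eq_zero_left h ▸ isAlgebraic_one.neg)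
  have a3 : x - 1 ≠ 0 := fun h => hx (sub_eq_zero.1 h ▸ isAlgebraic_one)
  have a4 : algebraMap K F t ≠ 0 := by simpa using ht
  have b1 : w ^ 2 - 1 ≠ 0 := by
    intro h
    apply mul_ne_zero a2 (mul_ne_zero a2 a3)
    rw [h] at hE
    linear_combination hE + (x + 1) * h
  have b2 : w ^ 2 - x ^ 2 ≠ 0 := by
    intro h
    rw [h, mul_zero] at hE
    exact mul_ne_zero (mul_ne_zero (mul_ne_zero a4 a1) a3) b1 hE
  refine ⟨a1, a2, a3, fun h => b1 ?_, fun h => b1 ?_, fun h => b2 ?_, fun h => b2 ?_⟩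
  · linear_combination (w - 1) * h
  · linear_combination (w + 1) * h
  · linear_combination (w - x) * h
  · linear_combination (w + x) * h

theorem loc {R : ℝ} (h0 : 0 < R) (h1 : R ≠ 1) (hR : ∀ z : ℂ, ‖z‖ = R → Transcendental ℚ z)
    {c : ℝ} (hc : wind (fun θ => (fX R (θ, 0) + fX R (θ, 0)) / (fX R (θ, 0) + 1)) / (2 * π) = c)
    {δ : ℝ} (hδ : 0 < δ) :
    ∀ᶠ τ in 𝓝[≠] (0 : ℂ), ∀ (K : Type) [Field K] [NumberField K] (F : Type) [Field F] [Algebra K F]
      (t : K) (x w : F) (σ : K →+* ℂ), σ t = τ → t ≠ 0 → Transcendental K x →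
      IntermediateField.adjoin K {x, w} = ⊤ →
      algebraMap K F t * x * (x - 1) * (w ^ 2 - 1) = (x + 1) * (w ^ 2 - x ^ 2) →
      ∃ ρ : K2 F →ₗ[ℤ] ℝ,
        |ρ (sy ((w - x) / 2) ((w + x) / 2)) - 1| < δ ∧
        |ρ (sy ((w - x) / (x + 1)) ((w + x) / (x + 1))) - c| < δ ∧
        |ρ (sy ((w + 1) / (2 * x)) ((w - 1) / (2 * x)))| < δ ∧
        |ρ (sy ((w + 1) / (x - 1)) ((w - 1) / (x - 1)))| < δ ∧
        |ρ (sy (-(w - 1) / (2 * x)) (-(w + 1) / (2 * x)))| < δ ∧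
        |ρ (sy (-(w - 1) / (x - 1)) (-(w + 1) / (x - 1)))| < δ := by
  have nX := nice_X h0
  have nXp := nice_Xp h0 h1
  have nXm := nice_Xm h0 h1
  have nWp := nice_Wp h0 h1
  have nWm := nice_Wm h0 h1
  have nWX := nice_WX h0 h1
  have n2 : Nice fun _ => (2 : ℂ) := nice_const two_ne_zero
  have nA := (((nX.mul nXm).mul nWm).mul nWp).div (nXp.mul nWX)
  have m1 := ev_main (nA.div n2) (nWX.div n2) hδ
  have m2 := ev_main (nA.div nXp) (nWX.div nXp) hδ
  have e1 : wind (fun s => (fW R (s, 0) + fX R (s, 0)) / 2) / (2 * π) = 1 := by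
    simp only [fW_zero h0 h1, add_self_div_two, wind_X h0]
    exact div_self Real.two_pi_pos.ne'
  simp only [e1] at m1
  simp only [fW_zero h0 h1, hc] at m2
  filter_upwards [(exists_ev h0 h1 hR).filter_mono nhdsWithin_le_nhds, m1, m2,
    ev_small (nWp.div (n2.mul nX)) (nWm.div (n2.mul nX)) hδ,
    ev_small (nWp.div nXm) (nWm.div nXm) hδ,
    ev_small (nWm.neg.div (n2.mul nX)) (nWp.neg.div (n2.mul nX)) hδ,
    ev_small (nWm.neg.div nXm) (nWp.neg.div nXm) hδ] with τ hev m1 m2 s1 s2 s3 s4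
  intro K _ _ F _ _ t x w σ hσ ht hx hgen hE
  obtain ⟨ev, hs, hp, et, ex, ew⟩ := hev K F t x w σ hσ ht hx hgen hE
  obtain ⟨ρ, hρ⟩ := exists_rho ev hs hp
  obtain ⟨a1, a2, a3, a4, a5, a6, a7⟩ := nonvan ht hx hE
  have : CharZero F := charZero_of_injective_algebraMap (algebraMap K F).injective
  have a8 : (2 : F) ≠ 0 := two_ne_zero
  have a9 : algebraMap K F t ≠ 0 := by simpa using ht
  have g : ∀ a : F, a ≠ 0 → Good fun θ => ev θ a := fun a ha => ⟨hs a, fun θ => by simpa using ha⟩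
  have r1 : ∀ a b : F, a ≠ 0 → b ≠ 0 → ρ (sy a b) = reg (fun θ => ev θ a) (fun θ => ev θ b) :=
    fun a b ha hb => by rw [sy_eq ha hb, hρ]; rfl
  have r2 : ∀ a b : F, a ≠ 0 → b ≠ 0 → ρ (sy (algebraMap K F t * a) b) =
      Real.log ‖τ‖ * wind (fun θ => ev θ b) + reg (fun θ => ev θ a) (fun θ => ev θ b) := by
    intro a b ha hb
    rw [r1 _ _ (mul_ne_zero a9 ha) hb]
    simp only [map_mul]
    rw [reg_mul_left (g _ a9) (g _ ha) (g _ hb)]
    simp only [et, reg_const_left]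
  have eA : w - x = algebraMap K F t * (x * (x - 1) * (w - 1) * (w + 1) / ((x + 1) * (w + x))) := by
    field_simp
    linear_combination -hE
  have aA : x * (x - 1) * (w - 1) * (w + 1) / ((x + 1) * (w + x)) ≠ 0 := by positivity
  refine ⟨(2 * π * Real.log ‖τ‖)⁻¹ • ρ, ?_, ?_, ?_, ?_, ?_, ?_⟩
  · rw [LinearMap.smul_apply, smul_eq_mul, eA, mul_div_assoc, r2 _ _ (by positivity) (by positivity)]
    simpa only [map_div₀, map_mul, map_add, map_sub, map_one, map_ofNat, ex, ew] using m1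
  · rw [LinearMap.smul_apply, smul_eq_mul, eA, mul_div_assoc, r2 _ _ (by positivity) (by positivity)]
    simpa only [map_div₀, map_mul, map_add, map_sub, map_one, map_ofNat, ex, ew] using m2
  · rw [LinearMap.smul_apply, smul_eq_mul, r1 _ _ (by positivity) (by positivity)]
    simpa only [map_div₀, map_mul, map_add, map_sub, map_one, map_ofNat, ex, ew] using s1
  · rw [LinearMap.smul_apply, smul_eq_mul, r1 _ _ (by positivity) (by positivity)]
    simpa only [map_div₀, map_mul, map_add, map_sub, map_one, map_ofNat, ex, ew] using s2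
  · rw [LinearMap.smul_apply, smul_eq_mul,
      r1 _ _ (div_ne_zero (neg_ne_zero.2 a5) (by positivity))
        (div_ne_zero (neg_ne_zero.2 a4) (by positivity))]
    simpa only [map_div₀, map_mul, map_add, map_sub, map_one, map_ofNat, map_neg, ex, ew] using s3
  · rw [LinearMap.smul_apply, smul_eq_mul,
      r1 _ _ (div_ne_zero (neg_ne_zero.2 a5) a3) (div_ne_zero (neg_ne_zero.2 a4) a3)]
    simpa only [map_div₀, map_mul, map_add, map_sub, map_one, map_ofNat, map_neg, ex, ew] using s4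

end Pool.Agent.MP_f3836a_nt.H23
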