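import Pool.Agent.MP_f3836a_nt.H23.BW
import Pool.Agent.MP_f3836a_nt.H23.Int

namespace Pool.Agent.MP_f3836a_nt.H23

open Complex Filter Topology Real

/-- Logarithmic derivative of a path. -/
noncomputable def dl (φ : ℝ → ℂ) (θ : ℝ) : ℂ := deriv φ θ / φ θ

/-- A `C¹` path avoiding `0`. -/
def Good (φ : ℝ → ℂ) : Prop := ContDiff ℝ 1 φ ∧ ∀ θ, φ θ ≠ 0

/-- Total variation of the argument. -/
noncomputable def wind (φ : ℝ → ℂ) : ℝ := ∫ θ in (0 : ℝ)..2 * π, (dl φ θ).im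

/-- The regulator pairing along the parameter interval. -/
noncomputable def reg (φ ψ : ℝ → ℂ) : ℝ :=
  ∫ θ in (0 : ℝ)..2 * π, (Real.log ‖φ θ‖ * (dl ψ θ).im - Real.log ‖ψ θ‖ * (dl φ θ).im)

theorem Good.hasDerivAt {φ : ℝ → ℂ} (h : Good φ) (θ : ℝ) : HasDerivAt φ (deriv φ θ) θ :=
  (h.1.differentiable one_ne_zero θ).hasDerivAt

theorem Good.cont_dl {φ : ℝ → ℂ} (h : Good φ) : Continuous fun θ => (dl φ θ).im :=
  continuous_im.comp ((h.1.continuous_deriv le_rfl).div h.1.continuous h.2)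

theorem Good.cont_log {φ : ℝ → ℂ} (h : Good φ) : Continuous fun θ => Real.log ‖φ θ‖ :=
  h.1.continuous.norm.log fun θ => by simpa using h.2 θ

theorem Good.mul {φ ψ : ℝ → ℂ} (h : Good φ) (h' : Good ψ) : Good fun θ => φ θ * ψ θ :=
  ⟨h.1.mul h'.1, fun θ => mul_ne_zero (h.2 θ) (h'.2 θ)⟩

theorem good_const {c : ℂ} (hc : c ≠ 0) : Good fun _ => c := ⟨contDiff_const, fun _ => hc⟩

theorem dl_mul {φ ψ : ℝ → ℂ} (h : Good φ) (h' : Good ψ) (θ : ℝ) :
    dl (fun θ => φ θ * ψ θ) θ = dl φ θ + dl ψ θ := by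
  have := ((h.hasDerivAt θ).mul (h'.hasDerivAt θ)).deriv
  have e : deriv (fun θ => φ θ * ψ θ) θ = deriv φ θ * ψ θ + φ θ * deriv ψ θ := this
  have a := h.2 θ
  have b := h'.2 θ
  simp only [dl, e]
  field_simp

theorem reg_swap (φ ψ : ℝ → ℂ) : reg φ ψ = -reg ψ φ := by
  simp only [reg]
  rw [← intervalIntegral.integral_neg]
  congr 1
  funext θ
  ring

theorem reg_int {φ ψ : ℝ → ℂ} (h : Good φ) (h' : Good ψ) :
    IntervalIntegrable (fun θ => Real.log ‖φ θ‖ * (dl ψ θ).im - Real.log ‖ψ θ‖ * (dl φ θ).im)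
      MeasureTheory.volume 0 (2 * π) :=
  ((h.cont_log.mul h'.cont_dl).sub (h'.cont_log.mul h.cont_dl)).intervalIntegrable _ _

theorem reg_mul_left {φ φ' ψ : ℝ → ℂ} (h : Good φ) (h' : Good φ') (k : Good ψ) :
    reg (fun θ => φ θ * φ' θ) ψ = reg φ ψ + reg φ' ψ := by
  simp only [reg]
  rw [← intervalIntegral.integral_add (reg_int h k) (reg_int h' k)]
  congr 1
  funext θ
  rw [dl_mul h h', norm_mul, Real.log_mul (by simpa using h.2 θ) (by simpa using h'.2 θ), add_im]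
  ring

theorem reg_mul_right {φ ψ ψ' : ℝ → ℂ} (h : Good φ) (k : Good ψ) (k' : Good ψ') :
    reg φ (fun θ => ψ θ * ψ' θ) = reg φ ψ + reg φ ψ' := by
  rw [reg_swap, reg_mul_left k k' h, reg_swap ψ, reg_swap ψ']
  ring

theorem reg_const_left (c : ℂ) (ψ : ℝ → ℂ) : reg (fun _ => c) ψ = Real.log ‖c‖ * wind ψ := by
  simp only [reg, wind]
  rw [← intervalIntegral.integral_const_mul]
  congr 1
  funext θ
  simp [dl]

theorem wind_mul {φ ψ : ℝ → ℂ} (h : Good φ) (h' : Good ψ) :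
    wind (fun θ => φ θ * ψ θ) = wind φ + wind ψ := by
  simp only [wind]
  rw [← intervalIntegral.integral_add (h.cont_dl.intervalIntegrable _ _)
    (h'.cont_dl.intervalIntegrable _ _)]
  congr 1
  funext θ
  rw [dl_mul h h', add_im]

theorem wind_slit {φ : ℝ → ℂ} (h : Good φ) (hs : ∀ θ, φ θ ∈ slitPlane) (hp : φ (2 * π) = φ 0) :
    wind φ = 0 := by
  have := intervalIntegral.integral_eq_sub_of_hasDerivAt (a := 0) (b := 2 * π)
    (fun θ _ => hasDerivAt_im ((h.hasDerivAt θ).clog_real (hs θ)))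
    (h.cont_dl.intervalIntegrable _ _)
  rw [hp, sub_self] at this
  exact this

theorem reg_steinberg {φ ψ : ℝ → ℂ} (h : Good φ) (h' : Good ψ) (hs : ∀ θ, φ θ + ψ θ = 1)
    (hp : φ (2 * π) = φ 0) : reg φ ψ = 0 := by
  obtain ⟨D, hD⟩ := exists_prim
  have e : ψ = fun θ => 1 - φ θ := funext fun θ => by linear_combination hs θ
  have key : ∀ θ ∈ Set.uIcc (0 : ℝ) (2 * π), HasDerivAt (fun s => D (φ s))
      (Real.log ‖φ θ‖ * (dl ψ θ).im - Real.log ‖ψ θ‖ * (dl φ θ).im) θ := by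
    intro θ _
    have h1 : φ θ ≠ 1 := fun c => h'.2 θ (by rw [e]; simp [c])
    refine (hD _ (h.2 θ) h1 _ _ θ (h.hasDerivAt θ) rfl).congr_deriv ?_
    have d : deriv ψ θ = -deriv φ θ := by
      rw [e]
      exact ((h.hasDerivAt θ).const_sub 1).deriv
    have e2 : ψ θ = 1 - φ θ := by rw [e]
    simp only [eta, dl, d, e2]
  have := intervalIntegral.integral_eq_sub_of_hasDerivAt key (reg_int h h')
  rw [hp, sub_self] at this
  exact this

theorem exists_rho {F : Type} [Field F] (ev : ℝ → F →+* ℂ)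
    (hs : ∀ f, ContDiff ℝ 1 fun θ => ev θ f) (hp : ∀ f, ev (2 * π) f = ev 0 f) :
    ∃ ρ : K2 F →ₗ[ℤ] ℝ, ∀ a b : Fˣ,
      ρ (sym a b) = reg (fun θ => ev θ a) (fun θ => ev θ b) := by
  have g : ∀ a : Fˣ, Good fun θ => ev θ a := fun a => ⟨hs a, fun θ => by simp⟩
  refine ⟨liftK2 (fun a b => reg (fun θ => ev θ a) (fun θ => ev θ b)) ?_ ?_ ?_,
    fun a b => liftK2_sym _ _ _ _ a b⟩
  · intro a a' b
    simp only [Units.val_mul, map_mul]
    exact reg_mul_left (g a) (g a') (g b)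
  · intro a b b'
    simp only [Units.val_mul, map_mul]
    exact reg_mul_right (g a) (g b) (g b')
  · intro a b h
    exact reg_steinberg (g a) (g b) (fun θ => by rw [← map_add, h, map_one]) (hp a)

/-- Continuity near the line `τ = 0`. -/
def CA {E : Type} [TopologicalSpace E] (k : ℝ × ℂ → E) : Prop :=
  ∀ θ : ℝ, ∀ᶠ p in 𝓝 (θ, (0 : ℂ)), ContinuousAt k p

theorem tendsto_integral {k : ℝ × ℂ → ℝ} (h : CA k) (b : ℝ) :
    Tendsto (fun τ : ℂ => ∫ θ in (0 : ℝ)..b, k (θ, τ)) (𝓝 0)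
      (𝓝 (∫ θ in (0 : ℝ)..b, k (θ, 0))) := by
  have h0 : Continuous fun θ : ℝ => k (θ, 0) := by
    rw [continuous_iff_continuousAt]
    intro θ
    exact (h θ).self_of_nhds.comp (f := fun θ : ℝ => (θ, (0 : ℂ))) (by fun_prop)
  obtain ⟨C, hC⟩ := (isCompact_uIcc (a := (0 : ℝ)) (b := b)).exists_bound_of_continuousOn
    h0.continuousOn
  have h1 : ∀ᶠ τ in 𝓝 (0 : ℂ), ∀ θ ∈ Set.uIcc (0 : ℝ) b,
      ContinuousAt k (θ, τ) ∧ ‖k (θ, τ)‖ ≤ C + 1 := by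
    apply isCompact_uIcc.eventually_forall_of_forall_eventually
      (P := fun τ θ => ContinuousAt k (θ, τ) ∧ ‖k (θ, τ)‖ ≤ C + 1)
    intro θ hθ
    have a1 : ∀ᶠ p in 𝓝 (θ, (0 : ℂ)), ‖k p‖ < C + 1 :=
      (h θ).self_of_nhds.norm.eventually_lt continuousAt_const (by linarith [hC θ hθ])
    have a2 : Tendsto (Prod.swap : ℂ × ℝ → ℝ × ℂ) (𝓝 (0, θ)) (𝓝 (θ, 0)) :=
      continuous_swap.tendsto _
    filter_upwards [a2.eventually (h θ), a2.eventually a1] with p p1 p2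
    exact ⟨p1, p2.le⟩
  refine intervalIntegral.tendsto_integral_filter_of_dominated_convergence (fun _ => C + 1) ?_ ?_
    (by simp) ?_
  · filter_upwards [h1] with τ hτ
    refine ContinuousOn.aestronglyMeasurable ?_ measurableSet_uIoc
    intro θ hθ
    exact ((hτ θ (Set.uIoc_subset_uIcc hθ)).1.comp (f := fun θ : ℝ => (θ, τ))
      (by fun_prop)).continuousWithinAt
  · filter_upwards [h1] with τ hτ
    exact Eventually.of_forall fun θ hθ => (hτ θ (Set.uIoc_subset_uIcc hθ)).2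
  · refine Eventually.of_forall fun θ _ => ?_
    exact (h θ).self_of_nhds.tendsto.comp
      ((show Continuous fun τ : ℂ => (θ, τ) by fun_prop).tendsto 0)

/-- A family of paths that is `C¹` and nonvanishing near `τ = 0`. -/
def Nice (Φ : ℝ × ℂ → ℂ) : Prop := ∀ θ : ℝ, ContDiffAt ℝ 1 Φ (θ, 0) ∧ Φ (θ, 0) ≠ 0

theorem Nice.ev {Φ : ℝ × ℂ → ℂ} (h : Nice Φ) (θ : ℝ) :
    ∀ᶠ p in 𝓝 (θ, (0 : ℂ)), ContDiffAt ℝ 1 Φ p ∧ Φ p ≠ 0 :=
  ((h θ).1.eventually (by simp)).and ((h θ).1.continuousAt.eventually_ne (h θ).2)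

theorem Nice.ca_log {Φ : ℝ × ℂ → ℂ} (h : Nice Φ) : CA fun p => Real.log ‖Φ p‖ := by
  intro θ
  filter_upwards [h.ev θ] with p hp
  exact hp.1.continuousAt.norm.log (by simpa using hp.2)

theorem Nice.ca_dl {Φ : ℝ × ℂ → ℂ} (h : Nice Φ) :
    CA fun p => (dl (fun s => Φ (s, p.2)) p.1).im := by
  intro θ
  filter_upwards [h.ev θ] with p hp
  have a1 : ContinuousAt (fun q => fderiv ℝ Φ q (1, 0)) p :=
    ((hp.1.fderiv_right (m := 0) (by simp)).continuousAt).clm_apply continuousAt_const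
  have a2 : ContinuousAt (fun q => (fderiv ℝ Φ q (1, 0) / Φ q).im) p :=
    continuous_im.continuousAt.comp (a1.div hp.1.continuousAt hp.2)
  refine a2.congr ?_
  filter_upwards [hp.1.eventually (by simp)] with q hq
  have b1 : HasDerivAt (fun s : ℝ => (s, q.2)) ((1 : ℝ), (0 : ℂ)) q.1 :=
    (hasDerivAt_id q.1).prodMk (hasDerivAt_const _ _)
  have b2 := (hq.differentiableAt one_ne_zero).hasFDerivAt.comp_hasDerivAt q.1 b1
  have b3 : deriv (fun s => Φ (s, q.2)) q.1 = fderiv ℝ Φ q (1, 0) := b2.deriv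
  simp only [dl, b3]

theorem tendsto_wind {Φ : ℝ × ℂ → ℂ} (h : Nice Φ) :
    Tendsto (fun τ : ℂ => wind fun s => Φ (s, τ)) (𝓝 0) (𝓝 (wind fun s => Φ (s, 0))) :=
  tendsto_integral h.ca_dl _

theorem tendsto_reg {Φ Ψ : ℝ × ℂ → ℂ} (h : Nice Φ) (h' : Nice Ψ) :
    Tendsto (fun τ : ℂ => reg (fun s => Φ (s, τ)) fun s => Ψ (s, τ)) (𝓝 0)
      (𝓝 (reg (fun s => Φ (s, 0)) fun s => Ψ (s, 0))) := by
  have : CA fun p => Real.log ‖Φ p‖ * (dl (fun s => Ψ (s, p.2)) p.1).im -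
      Real.log ‖Ψ p‖ * (dl (fun s => Φ (s, p.2)) p.1).im := by
    intro θ
    filter_upwards [h.ca_log θ, h'.ca_log θ, h.ca_dl θ, h'.ca_dl θ] with p a1 a2 a3 a4
    exact (a1.mul a4).sub (a2.mul a3)
  exact tendsto_integral this _

theorem Nice.mul {Φ Ψ : ℝ × ℂ → ℂ} (h : Nice Φ) (h' : Nice Ψ) : Nice fun p => Φ p * Ψ p :=
  fun θ => ⟨(h θ).1.mul (h' θ).1, mul_ne_zero (h θ).2 (h' θ).2⟩

theorem Nice.div {Φ Ψ : ℝ × ℂ → ℂ} (h : Nice Φ) (h' : Nice Ψ) : Nice fun p => Φ p / Ψ p :=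
  fun θ => ⟨by
    simp only [div_eq_mul_inv]
    exact (h θ).1.mul ((h' θ).1.inv (h' θ).2), div_ne_zero (h θ).2 (h' θ).2⟩

theorem nice_const {c : ℂ} (hc : c ≠ 0) : Nice fun _ => c := fun _ => ⟨contDiffAt_const, hc⟩

end Pool.Agent.MP_f3836a_nt.H23
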